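import Pool.Agent.Work.MP_f2148a_nt.HE.EffBound

/-!
# Removing the size restriction

Proof. There is `K₀ ≥ 1` with `C (1 + log K) ^ 2 ≤ K ^ (1 / 1000)` for `K ≥ K₀` (`C` of `eff_bound`).
For `K ≥ K₀` the two sets are equal (`|k| ≥ 1`, `log |k| ≤ log K`). For `K < K₀` the set is contained
in `{k | |k| ≤ K₀}`, of at most `2 K₀ + 1` elements, and `K ^ (1 - 1 / 1000000) ≥ 1`.
-/

set_option autoImplicit false

namespace HallEff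

private theorem fe_large (C : ℝ) (hC : 0 ≤ C) : ∃ K₀ : ℝ, 1 ≤ K₀ ∧ ∀ K : ℝ, K₀ ≤ K →
    C * (1 + Real.log K) ^ 2 ≤ K ^ (1 / 1000 : ℝ) := by
  have h1 : Filter.Tendsto (fun K : ℝ => Real.log K / K ^ (1 / 4000 : ℝ)) Filter.atTop
      (nhds 0) := (isLittleO_log_rpow_atTop (by norm_num : (0 : ℝ) < 1 / 4000)).tendsto_div_nhds_zero
  have h2 := (h1.eventually (gt_mem_nhds (show (0 : ℝ) < 1 by norm_num))).and
    ((tendsto_rpow_atTop (by norm_num : (0 : ℝ) < 1 / 4000)).eventually_ge_atTop (4 * C + 1))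
  obtain ⟨K₁, hK₁⟩ := Filter.eventually_atTop.1 h2
  refine ⟨max 1 K₁, le_max_left _ _, fun K hK => ?_⟩
  have hK1 : 1 ≤ K := (le_max_left _ _).trans hK
  obtain ⟨h3, h4⟩ := hK₁ K ((le_max_right _ _).trans hK)
  obtain ⟨s, hs⟩ : ∃ s : ℝ, s = K ^ (1 / 4000 : ℝ) := ⟨_, rfl⟩
  rw [← hs] at h3 h4
  have hs1 : 1 ≤ s := by linarith
  have h5 : Real.log K ≤ s := by
    rw [div_lt_one (by linarith)] at h3
    exact h3.le
  have h6 : K ^ (1 / 1000 : ℝ) = s ^ 4 := by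
    rw [hs, ← Real.rpow_natCast, ← Real.rpow_mul (by linarith)]
    norm_num
  rw [h6]
  have h7 := Real.log_nonneg hK1
  have h8 : (1 + Real.log K) ^ 2 ≤ (2 * s) ^ 2 := pow_le_pow_left₀ (by linarith) (by linarith) 2
  calc C * (1 + Real.log K) ^ 2 ≤ C * (2 * s) ^ 2 := mul_le_mul_of_nonneg_left h8 hC
    _ = (4 * C) * s ^ 2 := by ring
    _ ≤ s * s ^ 2 := mul_le_mul_of_nonneg_right (by linarith) (sq_nonneg s)
    _ = s ^ 3 := by ring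
    _ ≤ s ^ 4 := pow_le_pow_right₀ hs1 (by norm_num)

theorem final_E (A0 : ℝ) (hA0 : ∀ K : ℝ, 1 ≤ K →
    (({k : ℤ | k ≠ 0 ∧ |(k : ℝ)| ≤ K ∧
      ∃ x y : ℤ, y ^ 2 = x ^ 3 + k ∧
        max |(x : ℝ)| |(y : ℝ)| ≤ Real.exp (Real.exp (K ^ (1 / 1000 : ℝ)))}).ncard : ℝ) ≤
      A0 * K ^ (1 - 1 / 1000000 : ℝ)) :
    ∃ A : ℝ, ∀ K : ℝ, 1 ≤ K →
    (({k : ℤ | k ≠ 0 ∧ |(k : ℝ)| ≤ K ∧ ∃ x y : ℤ, y ^ 2 = x ^ 3 + k}).ncard : ℝ) ≤
      A * K ^ (1 - 1 / 1000000 : ℝ) := by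
  obtain ⟨C, hC, hbd⟩ := eff_bound
  obtain ⟨K₀, hK₀, hlarge⟩ := fe_large C hC
  refine ⟨max A0 (2 * K₀ + 1), fun K hK => ?_⟩
  have hpow : 1 ≤ K ^ (1 - 1 / 1000000 : ℝ) := Real.one_le_rpow hK (by norm_num)
  rcases le_total K₀ K with h | h
  · have hset : {k : ℤ | k ≠ 0 ∧ |(k : ℝ)| ≤ K ∧ ∃ x y : ℤ, y ^ 2 = x ^ 3 + k} =
        {k : ℤ | k ≠ 0 ∧ |(k : ℝ)| ≤ K ∧
          ∃ x y : ℤ, y ^ 2 = x ^ 3 + k ∧
            max |(x : ℝ)| |(y : ℝ)| ≤ Real.exp (Real.exp (K ^ (1 / 1000 : ℝ)))} := by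
      ext k
      constructor
      · rintro ⟨hk, hkK, x, y, hxy⟩
        refine ⟨hk, hkK, x, y, hxy, (hbd k x y hk hxy).trans ?_⟩
        refine Real.exp_le_exp.2 (Real.exp_le_exp.2 ?_)
        have hk1 : (1 : ℝ) ≤ |(k : ℝ)| := by
          have h1 : 1 ≤ |k| := Int.one_le_abs hk
          exact_mod_cast h1
        refine le_trans ?_ (hlarge K h)
        refine mul_le_mul_of_nonneg_left ?_ hC
        have h2 := Real.log_nonneg hk1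
        have h3 := Real.log_le_log (by linarith) hkK
        exact pow_le_pow_left₀ (by linarith) (by linarith) 2
      · rintro ⟨hk, hkK, x, y, hxy, -⟩
        exact ⟨hk, hkK, x, y, hxy⟩
    rw [hset]
    exact (hA0 K hK).trans (mul_le_mul_of_nonneg_right (le_max_left _ _) (by linarith))
  · have hsub : {k : ℤ | k ≠ 0 ∧ |(k : ℝ)| ≤ K ∧ ∃ x y : ℤ, y ^ 2 = x ^ 3 + k} ⊆
        ((Finset.Icc (-(⌊K₀⌋₊ : ℤ)) (⌊K₀⌋₊ : ℤ) : Finset ℤ) : Set ℤ) := by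
      rintro k ⟨hk, hkK, -⟩
      rw [Finset.mem_coe, Finset.mem_Icc, ← abs_le]
      have h1 : (k.natAbs : ℝ) ≤ K₀ := by
        have h2 : ((k.natAbs : ℕ) : ℝ) = |(k : ℝ)| := by
          rw [Nat.cast_natAbs]
          push_cast
          rfl
        rw [h2]
        exact hkK.trans h
      have h2 : k.natAbs ≤ ⌊K₀⌋₊ := Nat.le_floor h1
      rw [Int.abs_eq_natAbs]
      exact_mod_cast h2
    have hcard := Set.ncard_le_ncard hsub (Finset.finite_toSet _)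
    rw [Set.ncard_coe_finset, Int.card_Icc] at hcard
    have h3 : ((⌊K₀⌋₊ : ℤ) + 1 - -(⌊K₀⌋₊ : ℤ)).toNat = 2 * ⌊K₀⌋₊ + 1 := by omega
    rw [h3] at hcard
    have h4 : (({k : ℤ | k ≠ 0 ∧ |(k : ℝ)| ≤ K ∧ ∃ x y : ℤ, y ^ 2 = x ^ 3 + k}).ncard : ℝ) ≤
        2 * (⌊K₀⌋₊ : ℝ) + 1 := by exact_mod_cast hcard
    have h5 : (⌊K₀⌋₊ : ℝ) ≤ K₀ := Nat.floor_le (by linarith)
    calc (({k : ℤ | k ≠ 0 ∧ |(k : ℝ)| ≤ K ∧ ∃ x y : ℤ, y ^ 2 = x ^ 3 + k}).ncard : ℝ)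
        ≤ 2 * K₀ + 1 := by linarith
      _ ≤ max A0 (2 * K₀ + 1) := le_max_right _ _
      _ ≤ max A0 (2 * K₀ + 1) * K ^ (1 - 1 / 1000000 : ℝ) :=
          le_mul_of_one_le_right (by
            have := le_max_right A0 (2 * K₀ + 1)
            linarith) hpow

end HallEff
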