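import Mathlib
/-!
# The splitting field of `T ^ 3 - 3 x T + 2 y`

Proof. Let `f = X ^ 3 - 3 x X + 2 y : ℚ[X]` and `L` its splitting field (`f.SplittingField`), a number
field (finite over `ℚ`, characteristic zero); `f` splits with three roots `θ₁, θ₂, θ₃` (with
multiplicity), `f = (X - θ₁)(X - θ₂)(X - θ₃)`, which gives the three symmetric functions (Vieta).
They are integral (roots of the monic `X ^ 3 - 3 x X + 2 y` over `ℤ`), so they come from `𝓞 L`. As
`θ₃ = -θ₁ - θ₂`, `L = ℚ(θ₁, θ₂)`. With `F = ℚ(θ₁)`: `[F : ℚ] ≤ 3` (degree of the minimal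
polynomial), `L = F(θ₂)` and `θ₂` is a root of `X ^ 2 + θ₁ X + (θ₁ ^ 2 - 3 x)` over `F`, so
`[L : F] ≤ 2`. (One may also take `L = ℚ(θ₁, θ₂) ⊂ ℂ`.)
-/

set_option autoImplicit false

namespace HallEff

open NumberField Polynomial IntermediateField

theorem exists_cubicField (x y : ℤ) : ∃ (L : Type) (_ : Field L) (_ : NumberField L)
    (θ₁ θ₂ θ₃ : 𝓞 L), θ₁ + θ₂ + θ₃ = 0 ∧ θ₁ * θ₂ + θ₂ * θ₃ + θ₃ * θ₁ = ((-3 * x : ℤ) : 𝓞 L) ∧
      θ₁ * θ₂ * θ₃ = ((-2 * y : ℤ) : 𝓞 L) ∧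
      IntermediateField.adjoin ℚ {(θ₁ : L), (θ₂ : L)} = ⊤ ∧ Module.finrank ℚ L ≤ 6 := by
  classical
  -- two roots in `ℂ`
  obtain ⟨a, ha⟩ : ∃ a : ℂ, a ^ 3 - 3 * (x : ℂ) * a + 2 * (y : ℂ) = 0 := by
    have hd : (X ^ 3 - C (3 * (x : ℂ)) * X + C (2 * (y : ℂ)) : ℂ[X]).degree ≠ 0 := by
      have : (X ^ 3 - C (3 * (x : ℂ)) * X + C (2 * (y : ℂ)) : ℂ[X]).degree = 3 := by
        compute_degree!
      rw [this]; decide
    obtain ⟨a, ha⟩ := IsAlgClosed.exists_root _ hd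
    refine ⟨a, ?_⟩
    simpa [IsRoot.def] using ha
  obtain ⟨b, hb⟩ : ∃ b : ℂ, b ^ 2 + a * b + (a ^ 2 - 3 * (x : ℂ)) = 0 := by
    have hd : (X ^ 2 + C a * X + C (a ^ 2 - 3 * (x : ℂ)) : ℂ[X]).degree ≠ 0 := by
      have : (X ^ 2 + C a * X + C (a ^ 2 - 3 * (x : ℂ)) : ℂ[X]).degree = 2 := by
        compute_degree!
      rw [this]; decide
    obtain ⟨b, hb⟩ := IsAlgClosed.exists_root _ hd
    refine ⟨b, ?_⟩
    simpa [IsRoot.def] using hb
  have hb3 : b ^ 3 - 3 * (x : ℂ) * b + 2 * (y : ℂ) = 0 := by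
    linear_combination (b - a) * hb + ha
  -- integrality over `ℤ`
  have hint : ∀ c : ℂ, c ^ 3 - 3 * (x : ℂ) * c + 2 * (y : ℂ) = 0 → IsIntegral ℤ c := by
    intro c hc
    refine ⟨X ^ 3 - C (3 * x) * X + C (2 * y), ?_, ?_⟩
    · monicity!
    · simpa [eval₂_eq_eval_map] using hc
  have hai := hint a ha
  have hbi := hint b hb3
  have haQ : IsIntegral ℚ a := hai.tower_top
  have hbQ : IsIntegral ℚ b := hbi.tower_top
  let L : IntermediateField ℚ ℂ := adjoin ℚ {a, b}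
  have haL : a ∈ L := subset_adjoin ℚ _ (by simp)
  have hbL : b ∈ L := subset_adjoin ℚ _ (by simp)
  have hfd : FiniteDimensional ℚ L := by
    apply finiteDimensional_adjoin
    intro c hc
    rcases hc with rfl | hc
    · exact haQ
    · rw [Set.mem_singleton_iff] at hc; rw [hc]; exact hbQ
  have hNF : NumberField L := { to_charZero := inferInstance, to_finiteDimensional := hfd }
  have haI : IsIntegral ℤ (⟨a, haL⟩ : L) := by
    rw [← isIntegral_algebraMap_iff (A := L) (B := ℂ) (FaithfulSMul.algebraMap_injective _ _)]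
    exact hai
  have hbI : IsIntegral ℤ (⟨b, hbL⟩ : L) := by
    rw [← isIntegral_algebraMap_iff (A := L) (B := ℂ) (FaithfulSMul.algebraMap_injective _ _)]
    exact hbi
  let t₁ : 𝓞 L := ⟨⟨a, haL⟩, haI⟩
  let t₂ : 𝓞 L := ⟨⟨b, hbL⟩, hbI⟩
  let φ : 𝓞 L →+* ℂ := (algebraMap L ℂ).comp (algebraMap (𝓞 L) L)
  have hinj : Function.Injective φ := by
    intro u v huv
    exact RingOfIntegers.ext (Subtype.ext huv)
  have h1 : φ t₁ = a := rfl
  have h2 : φ t₂ = b := rfl
  have htop : @IntermediateField.adjoin ℚ _ L _ L.algebra' {(⟨a, haL⟩ : L), (⟨b, hbL⟩ : L)} = ⊤ := by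
    apply IntermediateField.lift_injective
    rw [IntermediateField.lift_adjoin, IntermediateField.lift_top]
    congr 1
    ext c
    simp only [Set.mem_image, Set.mem_insert_iff, Set.mem_singleton_iff, exists_eq_or_imp,
      exists_eq_left]
    constructor
    · rintro (h | h)
      · left; exact h.symm
      · right; exact h.symm
    · rintro (h | h)
      · left; exact h.symm
      · right; exact h.symm
  refine ⟨L, inferInstance, hNF, t₁, t₂, -t₁ - t₂, by ring, ?_, ?_, ?_, ?_⟩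
  · apply hinj
    rw [map_intCast]
    simp only [map_add, map_mul, map_sub, map_neg, h1, h2]
    push_cast
    linear_combination -hb
  · apply hinj
    rw [map_intCast]
    simp only [map_mul, map_sub, map_neg, h1, h2]
    push_cast
    linear_combination -a * hb + ha
  · have halg : (DivisionRing.toRatAlgebra : Algebra ℚ L) = L.algebra' := Subsingleton.elim _ _
    change @IntermediateField.adjoin ℚ _ L _ DivisionRing.toRatAlgebra
      {(⟨a, haL⟩ : L), (⟨b, hbL⟩ : L)} = ⊤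
    rw [halg]
    exact htop
  · -- degree
    have hL : L = IntermediateField.restrictScalars ℚ (ℚ⟮a⟯⟮b⟯) :=
      (IntermediateField.adjoin_simple_adjoin_simple ℚ a b).symm
    have haA : IsIntegral ℚ⟮a⟯ b := hbQ.tower_top
    have e1 : Module.finrank ℚ ℚ⟮a⟯ ≤ 3 := by
      rw [IntermediateField.adjoin.finrank haQ]
      have hm : (X ^ 3 - C (3 * (x : ℚ)) * X + C (2 * (y : ℚ)) : ℚ[X]).Monic := by monicity!
      have hd : (X ^ 3 - C (3 * (x : ℚ)) * X + C (2 * (y : ℚ)) : ℚ[X]).natDegree = 3 := by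
        compute_degree!
      rw [← hd]
      apply Polynomial.natDegree_le_of_dvd
      · apply minpoly.dvd
        simpa using ha
      · exact hm.ne_zero
    have e2 : Module.finrank ℚ⟮a⟯ ℚ⟮a⟯⟮b⟯ ≤ 2 := by
      rw [IntermediateField.adjoin.finrank haA]
      let g : ℚ⟮a⟯ := AdjoinSimple.gen ℚ a
      have hm : (X ^ 2 + C g * X + C (g ^ 2 - 3 * (x : ℚ⟮a⟯)) : ℚ⟮a⟯[X]).Monic := by monicity!
      have hd : (X ^ 2 + C g * X + C (g ^ 2 - 3 * (x : ℚ⟮a⟯)) : ℚ⟮a⟯[X]).natDegree = 2 := by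
        compute_degree!
      rw [← hd]
      apply Polynomial.natDegree_le_of_dvd
      · apply minpoly.dvd
        have hg : algebraMap ℚ⟮a⟯ ℂ g = a := AdjoinSimple.algebraMap_gen ℚ a
        simp only [map_add, map_mul, map_pow, aeval_X, aeval_C, map_sub, hg, map_ofNat,
          map_intCast]
        exact hb
      · exact hm.ne_zero
    have e3 : Module.finrank ℚ ℚ⟮a⟯⟮b⟯ = Module.finrank ℚ L := by
      rw [hL]; rfl
    rw [← e3, ← Module.finrank_mul_finrank ℚ ℚ⟮a⟯ ℚ⟮a⟯⟮b⟯]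
    calc _ ≤ 3 * 2 := Nat.mul_le_mul e1 e2
      _ = 6 := by norm_num

end HallEff
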