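import Pool.Agent.Work.MP_f2148a_nt.HE.DiffE

/-!
# The discriminant of the splitting field

Proof. Let `F = ℚ(θ₁)` (`IntermediateField.adjoin ℚ {θ₁}`, a number field). `θ₁` comes from `𝓞 F`;
`F = ℚ[θ₁]` (`IntermediateField.adjoin_simple_toSubalgebra_of_integral`). It is a root of
`f = X ^ 3 - 3 x X + 2 y : ℤ[X]`, so `f'(θ₁) = 3 θ₁ ^ 2 - 3 x ∈ differentIdeal ℤ (𝓞 F)`
(`aeval_derivative_mem_int`), and in `𝓞 L`: `f'(θ₁) = (θ₁ - θ₂)(θ₁ - θ₃)`. `L = F(θ₂)` and `θ₂` is a root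
of `g = X ^ 2 + θ₁ X + (θ₁ ^ 2 - 3 x)` over `𝓞 F`, so `g'(θ₂) = 2 θ₂ + θ₁ = θ₂ - θ₃` is in
`differentIdeal (𝓞 F) (𝓞 L)` (`aeval_derivative_mem_rel`). By the transitivity
`differentIdeal ℤ (𝓞 L) = differentIdeal (𝓞 F) (𝓞 L) * map (differentIdeal ℤ (𝓞 F))`
(`differentIdeal_eq_differentIdeal_mul_differentIdeal`) the product
`V = (θ₁ - θ₂)(θ₂ - θ₃)(θ₃ - θ₁)` is in `differentIdeal ℤ (𝓞 L)`, of norm `|discr L|`
(`absNorm_differentIdeal`). So `|discr L|` divides `|N(V)|` and `N(V) ^ 2 = N(V ^ 2) = (-108 k) ^ d`,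
because `V ^ 2 = 4 (3 x) ^ 3 - 27 (2 y) ^ 2 = 108 (x ^ 3 - y ^ 2) = -108 k` (an identity in the
symmetric functions: substitute `θ₃ = -θ₁ - θ₂`, then `3 x` and `2 y` are polynomials in `θ₁, θ₂`).
-/

set_option autoImplicit false

namespace HallEff

open NumberField

attribute [local instance] FractionRing.liftAlgebra in
private lemma diff_tower (F L : Type*) [Field F] [NumberField F] [Field L] [NumberField L]
    [Algebra F L] : differentIdeal ℤ (𝓞 L) =
      differentIdeal (𝓞 F) (𝓞 L) * (differentIdeal ℤ (𝓞 F)).map (algebraMap (𝓞 F) (𝓞 L)) :=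
  differentIdeal_eq_differentIdeal_mul_differentIdeal ℤ (𝓞 F) (𝓞 L)

theorem sq_vandermonde {R : Type*} [CommRing R] (x y θ₁ θ₂ θ₃ : R) (h1 : θ₁ + θ₂ + θ₃ = 0)
    (h2 : θ₁ * θ₂ + θ₂ * θ₃ + θ₃ * θ₁ = -3 * x) (h3 : θ₁ * θ₂ * θ₃ = -2 * y) :
    ((θ₁ - θ₂) * (θ₂ - θ₃) * (θ₃ - θ₁)) ^ 2 = 108 * (x ^ 3 - y ^ 2) := by
  have e : θ₃ = -θ₁ - θ₂ := by linear_combination h1
  subst e
  have hx : 3 * x = θ₁ ^ 2 + θ₁ * θ₂ + θ₂ ^ 2 := by linear_combination h2
  have hy : 2 * y = θ₁ * θ₂ * (θ₁ + θ₂) := by linear_combination h3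
  have h108 : 108 * (x ^ 3 - y ^ 2) = 4 * (3 * x) ^ 3 - 27 * (2 * y) ^ 2 := by ring
  rw [h108, hx, hy]
  ring

theorem discr_le (L : Type) [Field L] [NumberField L] (k x y : ℤ) (hk : k ≠ 0)
    (hxy : y ^ 2 = x ^ 3 + k) (θ₁ θ₂ θ₃ : 𝓞 L) (h1 : θ₁ + θ₂ + θ₃ = 0)
    (h2 : θ₁ * θ₂ + θ₂ * θ₃ + θ₃ * θ₁ = ((-3 * x : ℤ) : 𝓞 L))
    (h3 : θ₁ * θ₂ * θ₃ = ((-2 * y : ℤ) : 𝓞 L))
    (htop : IntermediateField.adjoin ℚ {(θ₁ : L), (θ₂ : L)} = ⊤) :
    |(discr L : ℝ)| ^ 2 ≤ (108 * |(k : ℝ)|) ^ (Module.finrank ℚ L) := by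
  classical
  have hint : IsIntegral ℚ (θ₁ : L) := Algebra.IsIntegral.isIntegral _
  let F : IntermediateField ℚ L := IntermediateField.adjoin ℚ {(θ₁ : L)}
  have hNF : NumberField F := inferInstance
  have hmem : (θ₁ : L) ∈ F := IntermediateField.mem_adjoin_simple_self ℚ (θ₁ : L)
  have hintF : IsIntegral ℤ (⟨(θ₁ : L), hmem⟩ : F) := by
    have h := θ₁.isIntegral_coe
    exact (isIntegral_algHom_iff (F.val.restrictScalars ℤ) F.val.injective).1 h
  let θF : 𝓞 F := ⟨⟨(θ₁ : L), hmem⟩, hintF⟩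
  have hθF : algebraMap (𝓞 F) (𝓞 L) θF = θ₁ := by
    apply RingOfIntegers.ext
    rfl
  have hinj : Function.Injective (algebraMap (𝓞 F) (𝓞 L)) :=
    FaithfulSMul.algebraMap_injective _ _
  -- `F` is generated by `θF`
  have hgenF : Algebra.adjoin ℚ {(θF : F)} = ⊤ := by
    have := (IntermediateField.adjoin.powerBasis hint).adjoin_gen_eq_top
    exact this
  -- `L` is generated by `θ₂` over `F`
  have hgenL : Algebra.adjoin F {(θ₂ : L)} = ⊤ := by
    have h2' : IsIntegral F (θ₂ : L) := Algebra.IsIntegral.isIntegral _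
    rw [← IntermediateField.adjoin_simple_toSubalgebra_of_isAlgebraic h2'.isAlgebraic]
    have h3' : IntermediateField.adjoin F {(θ₂ : L)} = ⊤ := by
      apply IntermediateField.restrictScalars_injective ℚ
      rw [IntermediateField.restrictScalars_top]
      have := IntermediateField.adjoin_adjoin_left ℚ {(θ₁ : L)} {(θ₂ : L)}
      rw [Set.singleton_union, htop] at this
      exact this
    rw [h3']
    rfl
  -- the two derivatives
  have e2 : ((-3 * x : ℤ) : 𝓞 L) = -3 * (x : 𝓞 L) := by push_cast; ring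
  have e3 : ((-2 * y : ℤ) : 𝓞 L) = -2 * (y : 𝓞 L) := by push_cast; ring
  rw [e2] at h2
  rw [e3] at h3
  have hD1 : (3 * θF ^ 2 - 3 * (x : 𝓞 F)) ∈ differentIdeal ℤ (𝓞 F) := by
    have key := aeval_derivative_mem_int F θF hgenF
      (Polynomial.X ^ 3 + (Polynomial.C (-3 * x) * Polynomial.X + Polynomial.C (2 * y))) (by
        refine Polynomial.monic_X_pow_add ?_
        refine lt_of_le_of_lt Polynomial.degree_linear_le ?_
        norm_num) (by
        apply hinj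
        simp only [map_add, map_mul, map_pow, Polynomial.aeval_X, Polynomial.aeval_C, map_zero]
        rw [hθF]
        simp only [map_neg, map_ofNat, eq_intCast, map_intCast]
        linear_combination θ₁ ^ 2 * h1 - θ₁ * h2 + h3)
    convert key using 1
    simp only [Polynomial.derivative_add, Polynomial.derivative_mul, Polynomial.derivative_X_pow,
      Polynomial.derivative_C, Polynomial.derivative_X, map_add, map_mul, map_pow,
      Polynomial.aeval_X, Polynomial.aeval_C, map_zero, zero_mul, mul_one]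
    simp only [map_mul, map_neg, map_ofNat, eq_intCast, map_natCast]
    push_cast
    ring
  have hD2 : θ₂ - θ₃ ∈ differentIdeal (𝓞 F) (𝓞 L) := by
    have key := aeval_derivative_mem_rel F L θ₂ hgenL
      (Polynomial.X ^ 2 + (Polynomial.C θF * Polynomial.X +
        Polynomial.C (θF ^ 2 - 3 * (x : 𝓞 F)))) (by
        refine Polynomial.monic_X_pow_add ?_
        refine lt_of_le_of_lt Polynomial.degree_linear_le ?_
        norm_num) (by
        simp only [map_add, map_mul, map_pow, Polynomial.aeval_X, Polynomial.aeval_C, map_sub,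
          map_ofNat, map_intCast]
        rw [hθF]
        linear_combination (θ₁ + θ₂) * h1 - h2)
    convert key using 1
    simp only [Polynomial.derivative_add, Polynomial.derivative_mul, Polynomial.derivative_X_pow,
      Polynomial.derivative_C, Polynomial.derivative_X, map_add, map_mul, map_pow,
      Polynomial.aeval_X, Polynomial.aeval_C, map_zero, zero_mul, mul_one, map_one, zero_add,
      add_zero, hθF]
    simp only [map_natCast]
    push_cast
    linear_combination (-1 : 𝓞 L) * h1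
  set V : 𝓞 L := (θ₂ - θ₃) * (3 * θ₁ ^ 2 - 3 * (x : 𝓞 L)) with hV
  have hVmem : V ∈ differentIdeal ℤ (𝓞 L) := by
    rw [diff_tower F L]
    refine Ideal.mul_mem_mul hD2 ?_
    have := Ideal.mem_map_of_mem (algebraMap (𝓞 F) (𝓞 L)) hD1
    simpa only [map_sub, map_mul, map_pow, map_ofNat, map_intCast, hθF] using this
  have hVV : V = -((θ₁ - θ₂) * (θ₂ - θ₃) * (θ₃ - θ₁)) := by
    rw [hV]
    linear_combination (θ₂ - θ₃) * 2 * θ₁ * h1 - (θ₂ - θ₃) * h2
  have hV2 : V ^ 2 = algebraMap ℤ (𝓞 L) (-108 * k) := by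
    rw [hVV, neg_sq, sq_vandermonde (x : 𝓞 L) (y : 𝓞 L) θ₁ θ₂ θ₃ h1 h2 h3]
    have hc : ((y : 𝓞 L)) ^ 2 = (x : 𝓞 L) ^ 3 + (k : 𝓞 L) := by
      have := congrArg (Int.cast : ℤ → 𝓞 L) hxy
      push_cast at this
      exact this
    rw [hc]
    simp only [eq_intCast]
    push_cast
    ring
  have hN2 : (Algebra.norm ℤ V) ^ 2 = (-108 * k) ^ (Module.finrank ℚ L) := by
    rw [← map_pow, hV2, Algebra.norm_algebraMap, RingOfIntegers.rank]
  have hN0 : Algebra.norm ℤ V ≠ 0 := by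
    intro h0
    rw [h0] at hN2
    have : (-108 * k) ^ (Module.finrank ℚ L) ≠ 0 := pow_ne_zero _ (by simpa using hk)
    exact this (by rw [← hN2]; norm_num)
  have hdvd : (discr L).natAbs ∣ (Algebra.norm ℤ V).natAbs := by
    rw [← absNorm_differentIdeal L (𝓞 L), ← Ideal.absNorm_span_singleton]
    exact Ideal.absNorm_dvd_absNorm_of_le ((Ideal.span_singleton_le_iff_mem _).2 hVmem)
  have hle : (discr L).natAbs ≤ (Algebra.norm ℤ V).natAbs :=
    Nat.le_of_dvd (Int.natAbs_pos.2 hN0) hdvd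
  have hle' : |(discr L : ℝ)| ≤ |((Algebra.norm ℤ V : ℤ) : ℝ)| := by
    have := (Nat.cast_le (α := ℝ)).2 hle
    rwa [Nat.cast_natAbs, Nat.cast_natAbs, Int.cast_abs, Int.cast_abs] at this
  calc |(discr L : ℝ)| ^ 2 ≤ |((Algebra.norm ℤ V : ℤ) : ℝ)| ^ 2 := by gcongr
    _ = |(((Algebra.norm ℤ V) ^ 2 : ℤ) : ℝ)| := by push_cast; rw [abs_pow]
    _ = (108 * |(k : ℝ)|) ^ (Module.finrank ℚ L) := by
      rw [hN2]
      push_cast
      rw [abs_pow, abs_mul]
      norm_num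

end HallEff
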