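import Mathlib

/-!
# Minkowski's theorem for a box in an integral ideal

Proof. `NumberField.mixedEmbedding.exists_ne_zero_mem_ideal_lt` for the unit fractional ideal `I`
(as in `NumberField.exists_ne_zero_mem_ideal_of_norm_le_mul_sqrt_discr` or its uses: a nonzero
integral ideal is a unit of the fractional ideals) and `f : InfinitePlace K → ℝ≥0`,
`f v = ⟨f v, _⟩`. `convexBodyLT_volume`: the volume is `convexBodyLTFactor K * ∏ f v ^ mult v`
with `convexBodyLTFactor K = 2 ^ r₁ * π ^ r₂`. `minkowskiBound K I = absNorm I * volume(latticeBasis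
domain) * 2 ^ d` (`volume_fundamentalDomain_fractionalIdealLatticeBasis`,
`FractionalIdeal.coeIdeal_absNorm`), the volume of the fundamental domain of `latticeBasis K` is
`(2⁻¹) ^ r₂ * √|discr K|` (`volume_fundamentalDomain_latticeBasis` in `Discriminant/Basic.lean`).
As `d = r₁ + 2 r₂`, `2 ^ d * 2⁻¹ ^ r₂ = 2 ^ r₁ * 2 ^ r₂ ≤ 2 ^ r₁ * π ^ r₂`. See also the proof of
`minkowskiBound_lt_boundOfDiscBdd`. The element found lies in `I`, so it comes from `𝓞 K`.
-/

set_option autoImplicit false

namespace HallEff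

open NumberField

open Classical in
theorem exists_box (K : Type*) [Field K] [NumberField K] (I : Ideal (𝓞 K)) (hI : I ≠ ⊥)
    (f : InfinitePlace K → ℝ) (hf : ∀ v, 0 < f v)
    (h : (Ideal.absNorm I : ℝ) * √|(discr K : ℝ)| < ∏ v : InfinitePlace K, f v ^ v.mult) :
    ∃ a : 𝓞 K, a ∈ I ∧ a ≠ 0 ∧ ∀ v : InfinitePlace K, v (a : K) < f v := by
  have hI0 : I ∈ nonZeroDivisors (Ideal (𝓞 K)) := mem_nonZeroDivisors_iff_ne_zero.2 hI
  set J : (FractionalIdeal (nonZeroDivisors (𝓞 K)) K)ˣ := FractionalIdeal.mk0 K ⟨I, hI0⟩ with hJ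
  have hJc : (J : FractionalIdeal (nonZeroDivisors (𝓞 K)) K) = (I : FractionalIdeal _ K) := by
    rw [hJ, FractionalIdeal.coe_mk0]
  let F : InfinitePlace K → NNReal := fun v => ⟨f v, (hf v).le⟩
  have hbound : mixedEmbedding.minkowskiBound K J <
      MeasureTheory.volume (mixedEmbedding.convexBodyLT K F) := by
    rw [mixedEmbedding.minkowskiBound,
      mixedEmbedding.volume_fundamentalDomain_fractionalIdealLatticeBasis,
      mixedEmbedding.volume_fundamentalDomain_latticeBasis, hJc, FractionalIdeal.coeIdeal_absNorm,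
      mixedEmbedding.finrank, mixedEmbedding.convexBodyLT_volume]
    have e1 : ENNReal.ofReal (((Ideal.absNorm I : ℕ) : ℚ) : ℝ) =
        (((Ideal.absNorm I : ℕ) : NNReal) : ENNReal) := by
      rw [Rat.cast_natCast, ENNReal.ofReal_natCast]
      simp
    rw [e1]
    have e2 : (((Ideal.absNorm I : ℕ) : NNReal) : ENNReal) *
        ((2 : ENNReal)⁻¹ ^ InfinitePlace.nrComplexPlaces K * (NNReal.sqrt ‖discr K‖₊ : ENNReal)) *
          2 ^ Module.finrank ℚ K =
        (((2 : NNReal) ^ InfinitePlace.nrRealPlaces K * 2 ^ InfinitePlace.nrComplexPlaces K *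
          (((Ideal.absNorm I : ℕ) : NNReal) * NNReal.sqrt ‖discr K‖₊) : NNReal) : ENNReal) := by
      rw [← InfinitePlace.card_add_two_mul_card_eq_rank]
      have e3 : (2 : ENNReal)⁻¹ = (((2 : NNReal)⁻¹ : NNReal) : ENNReal) := by
        rw [ENNReal.coe_inv two_ne_zero]
        simp
      rw [e3]
      have e4 : (2 : ENNReal) = ((2 : NNReal) : ENNReal) := by simp
      rw [e4]
      rw [← ENNReal.coe_pow, ← ENNReal.coe_pow, ← ENNReal.coe_mul, ← ENNReal.coe_mul,
        ← ENNReal.coe_mul, ENNReal.coe_inj]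
      have h2 : (2 : NNReal) ≠ 0 := two_ne_zero
      rw [inv_pow, pow_add, mul_comm 2 (InfinitePlace.nrComplexPlaces K), pow_mul]
      have h3 : (2 : NNReal) ^ InfinitePlace.nrComplexPlaces K ≠ 0 := pow_ne_zero _ h2
      field_simp
    rw [e2]
    have e7 : ((Ideal.absNorm I : ℕ) : NNReal) * NNReal.sqrt ‖discr K‖₊ <
        ∏ w, F w ^ InfinitePlace.mult w := by
      rw [← NNReal.coe_lt_coe]
      push_cast
      have : ‖discr K‖ = |(discr K : ℝ)| := by
        rw [Int.norm_eq_abs]
      rw [this]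
      exact h
    have e8 : (2 : NNReal) ^ InfinitePlace.nrRealPlaces K * 2 ^ InfinitePlace.nrComplexPlaces K *
          (((Ideal.absNorm I : ℕ) : NNReal) * NNReal.sqrt ‖discr K‖₊) <
        mixedEmbedding.convexBodyLTFactor K * ∏ w, F w ^ InfinitePlace.mult w := by
      have hπ : (2 : NNReal) ≤ NNReal.pi := by
        rw [← NNReal.coe_le_coe]
        exact Real.two_le_pi
      have hfac : (2 : NNReal) ^ InfinitePlace.nrRealPlaces K *
          2 ^ InfinitePlace.nrComplexPlaces K ≤ mixedEmbedding.convexBodyLTFactor K := by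
        unfold mixedEmbedding.convexBodyLTFactor
        gcongr
      exact mul_lt_mul_of_le_of_lt_of_pos_of_nonneg hfac e7 (by positivity) (by positivity)
    rw [← ENNReal.coe_mul]
    exact ENNReal.coe_lt_coe.2 e8
  obtain ⟨a, haJ, ha0, hav⟩ := mixedEmbedding.exists_ne_zero_mem_ideal_lt K J hbound
  rw [hJc, FractionalIdeal.mem_coeIdeal] at haJ
  obtain ⟨b, hbI, hba⟩ := haJ
  refine ⟨b, hbI, ?_, ?_⟩
  · rintro rfl
    exact ha0 (by rw [← hba]; simp)
  · intro v
    have hb : (b : K) = a := hba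
    rw [hb]
    exact hav v

end HallEff
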