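import Pool.Agent.Work.MP_a793bb_nt.RadK.DecK
import Pool.Agent.Work.MP_f2148a_nt.HE.Box

/-!
# Approximate `n`-th roots by Minkowski's theorem

`Dec C n u b ξ` (file `MP_a793bb_nt/RadK/DefsK`): `ξ ≠ 0`, `kp p ξ = fr n (kp p u) + ex b p` for all
primes `p`, `|log (v ξ) - log (v u) / n| ≤ C + lsum (supp u)` for all infinite places `v`.

Proof (compare `exists_dec` in `MP_a793bb_nt/RadK/DecK`, whose private lemmas `dk_exists_ideal`,
`dk_sum_ex`, `dk_prod` can be copied). Let `f_p = fr n (kp p u)`, `g_p = gr n (kp p u)`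
(`g_p = kp p u - n f_p`, `2 |g_p| ≤ n`, both `0` outside `supp u`). `dk_exists_ideal` gives nonzero
ideals `A⁺, A⁻` with `ex A⁺ p = (f_p)⁺`, `ex A⁻ p = (-f_p)⁺`. Let `m ≠ 0` be an element of `A⁻`
(for example its norm) and `J` the nonzero ideal with `span {m} = A⁻ * J` (`Ideal.dvd_iff_le`).
Let `I = A⁺ * J`. Let `M = 2 √|discr K| ≥ 2` (`|discr K| ≥ 1`: `discr_ne_zero`) and `σ` the number with
`d σ = log M - (1 / n) ∑_p g_p lN p` (`d = finrank`), `F v = exp (log (v u) / n + σ) * v m`. Then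
`∑_v mult log (F v) = ∑_p (kp p u / n) lN p + log M - ∑ (g_p / n) lN p + ∑ kp p m lN p
= log M + ∑_p (f_p + kp p m) lN p = log M + log N(I)` because
`ex I p = f_p⁺ + kp p m - f_p⁻ = f_p + kp p m` (`dk_prod` is the product formula, `dk_sum_ex`
computes `log N`). So `∏ F v ^ mult = M * N(I) > √|discr K| * N(I)` and `exists_box` gives
`a ∈ I`, `a ≠ 0`, `v a < F v`. Put `ξ = a / m` and let `b` be the ideal with `span {a} = I * b`. Then
`kp p ξ = ex I p + ex b p - kp p m = f_p + ex b p`. With `s_v = log (F v) - log (v a) > 0`,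
`∑_v mult s_v = log M + log N(I) - log N(span {a}) = log M - log N(b)`; hence `N(b) ≤ M` (even `<`) and,
as `log N(b) ≥ 0`, `mult ≥ 1`, `0 ≤ s_v ≤ log M` for every `v`. So
`|log (v ξ) - log (v u) / n| = |σ - s_v| ≤ |σ| + log M ≤ 2 log M + lsum (supp u)`
(`|∑_p (g_p / n) lN p| ≤ lsum (supp u)`, `d ≥ 1`).
-/

set_option autoImplicit false

namespace HallEff

open AbcRadK Finset AbcRad Pool.Agent.Work.MP_a793bb_nt Pool.Agent.Work.MP_a793bb_nt.BPlus
  NumberField IsDedekindDomain Height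

variable {K : Type*} [Field K] [NumberField K]

private theorem de_ex_self (p : HeightOneSpectrum (𝓞 K)) : ex p.asIdeal p = 1 := by
  refine ex_eq_iff p p.ne_bot fun k => ?_
  constructor
  · intro h
    by_contra hk
    have h1 : p.asIdeal ^ 2 ∣ p.asIdeal ^ 1 := by
      rw [pow_one]
      exact (pow_dvd_pow _ (by omega)).trans h
    have h2 := (pow_dvd_pow_iff p.ne_bot p.prime.not_isUnit).1 h1
    omega
  · intro h
    calc p.asIdeal ^ k ∣ p.asIdeal ^ 1 := pow_dvd_pow _ h
      _ = p.asIdeal := pow_one _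

private theorem de_ex_ne {p q : HeightOneSpectrum (𝓞 K)} (h : q ≠ p) : ex q.asIdeal p = 0 := by
  apply ex_eq_zero
  intro h2
  apply h
  have h4 := Ideal.le_of_dvd h2
  exact HeightOneSpectrum.ext (Ideal.IsMaximal.eq_of_le q.isMaximal p.isPrime.ne_top h4)

private theorem de_exists_ideal (g : HeightOneSpectrum (𝓞 K) → ℕ)
    (S : Finset (HeightOneSpectrum (𝓞 K))) (hS : ∀ p, g p ≠ 0 → p ∈ S) :
    ∃ A : Ideal (𝓞 K), A ≠ ⊥ ∧ ∀ p, ex A p = g p := by
  classical
  have key : ∀ S : Finset (HeightOneSpectrum (𝓞 K)), (∏ q ∈ S, q.asIdeal ^ g q) ≠ ⊥ ∧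
      ∀ p, ex (∏ q ∈ S, q.asIdeal ^ g q) p = if p ∈ S then g p else 0 := by
    intro S
    induction S using Finset.induction_on with
    | empty =>
      refine ⟨?_, fun p => ?_⟩
      · rw [Finset.prod_empty]
        exact one_ne_zero
      · rw [Finset.prod_empty, if_neg (Finset.notMem_empty p)]
        apply ex_eq_zero
        intro h
        exact p.prime.not_isUnit (isUnit_of_dvd_one h)
    | insert a S ha ih =>
      obtain ⟨ih1, ih2⟩ := ih
      have h1 : a.asIdeal ^ g a ≠ ⊥ := pow_ne_zero _ a.ne_bot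
      rw [Finset.prod_insert ha]
      refine ⟨mul_ne_zero h1 ih1, fun p => ?_⟩
      rw [ex_mul h1 ih1, ex_pow a.ne_bot, ih2]
      by_cases hp : p = a
      · subst hp
        rw [de_ex_self, if_neg ha, if_pos (Finset.mem_insert_self _ _)]
        ring
      · rw [de_ex_ne (Ne.symm hp)]
        simp [Finset.mem_insert, hp]
  refine ⟨∏ q ∈ S, q.asIdeal ^ g q, (key S).1, fun p => ?_⟩
  rw [(key S).2]
  by_cases hp : p ∈ S
  · rw [if_pos hp]
  · rw [if_neg hp]
    by_contra h
    exact hp (hS p (Ne.symm h))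

private theorem de_sum_ex {b : Ideal (𝓞 K)} (hb : b ≠ ⊥) (T : Finset (HeightOneSpectrum (𝓞 K)))
    (hT : ∀ p : HeightOneSpectrum (𝓞 K), p.asIdeal ∣ b → p ∈ T) :
    ∑ p ∈ T, (ex b p : ℝ) * lN p = Real.log (Ideal.absNorm b : ℝ) := by
  rw [absNorm_prod_ex hb T hT, Real.log_prod]
  · refine Finset.sum_congr rfl fun p _ => ?_
    rw [Real.log_pow]
    rfl
  · intro p _
    have := two_le_Np p
    positivity

private theorem de_prod {x : K} (hx : x ≠ 0) (T : Finset (HeightOneSpectrum (𝓞 K)))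
    (hT : ∀ p, kp p x ≠ 0 → p ∈ T) :
    ∑ v : InfinitePlace K, (v.mult : ℝ) * Real.log (v x) = ∑ p ∈ T, (kp p x : ℝ) * lN p := by
  have h := prodFormula_log hx T fun p hp => hT p fun h => hp ((av_one_iff_kp p hx).2 h)
  have h2 : ∑ p ∈ T, Real.log (av p x) = -∑ p ∈ T, (kp p x : ℝ) * lN p := by
    rw [← Finset.sum_neg_distrib]
    refine Finset.sum_congr rfl fun p _ => ?_
    rw [log_av hx]
    ring
  rw [h2] at h
  linarith

theorem exists_dec_mink (K : Type*) [Field K] [NumberField K] (n : ℕ) (u : K) (hn : 1 ≤ n)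
    (hu : u ≠ 0) : ∃ b : Ideal (𝓞 K), b ≠ ⊥ ∧ (Ideal.absNorm b : ℝ) ≤ 2 * √|(discr K : ℝ)| ∧
      ∃ ξ : K, Dec (2 * Real.log (2 * √|(discr K : ℝ)|)) n u b ξ := by
  classical
  have hd : (1 : ℝ) ≤ (Module.finrank ℚ K : ℝ) := by
    exact_mod_cast Module.finrank_pos
  have hD1 : (1 : ℝ) ≤ √|(discr K : ℝ)| := by
    rw [Real.one_le_sqrt]
    have h := Int.one_le_abs (discr_ne_zero K)
    exact_mod_cast h
  obtain ⟨M, hMdef⟩ : ∃ M : ℝ, M = 2 * √|(discr K : ℝ)| := ⟨_, rfl⟩
  have hM2 : 2 ≤ M := by rw [hMdef]; linarith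
  have hM0 : 0 < M := by linarith
  have hlM : 0 ≤ Real.log M := Real.log_nonneg (by linarith)
  rw [← hMdef]
  -- the ideals
  have hf0 : ∀ p, fr n (kp p u) ≠ 0 → p ∈ supp u := by
    intro p hp
    rw [mem_supp hu]
    intro h
    rw [h, fr_zero n hn] at hp
    exact hp rfl
  obtain ⟨A, hA, hexA⟩ := de_exists_ideal (fun p => (fr n (kp p u)).toNat) (supp u)
    fun p hp => hf0 p fun h => hp (by rw [h]; rfl)
  obtain ⟨B, hB, hexB⟩ := de_exists_ideal (fun p => (-fr n (kp p u)).toNat) (supp u)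
    fun p hp => hf0 p fun h => hp (by rw [h]; rfl)
  obtain ⟨m, hmB, hm⟩ := Submodule.exists_mem_ne_zero_of_ne_bot hB
  have hmK : (m : K) ≠ 0 := by exact_mod_cast hm
  have hsm : Ideal.span {m} ≠ (⊥ : Ideal (𝓞 K)) := by simpa using hm
  obtain ⟨J, hJ⟩ : B ∣ Ideal.span {m} :=
    Ideal.dvd_iff_le.2 ((Ideal.span_singleton_le_iff_mem _).2 hmB)
  have hJ0 : J ≠ ⊥ := by
    rintro rfl
    apply hsm
    rw [hJ]
    exact mul_zero B
  have hI0 : A * J ≠ ⊥ := mul_ne_zero hA hJ0
  have hexI : ∀ p, (ex (A * J) p : ℤ) = fr n (kp p u) + kp p (m : K) := by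
    intro p
    have h1 : ex (Ideal.span {m}) p = ex (B * J) p := by rw [hJ]
    rw [ex_mul hB hJ0, hexB] at h1
    have h2 := ex_span hm p
    rw [ex_mul hA hJ0, hexA, ← h2, h1]
    push_cast
    omega
  -- the finite set of primes
  obtain ⟨T, hTs, hTI, hTm⟩ : ∃ T : Finset (HeightOneSpectrum (𝓞 K)), (∀ p ∈ supp u, p ∈ T) ∧
      (∀ p : HeightOneSpectrum (𝓞 K), p.asIdeal ∣ A * J → p ∈ T) ∧
      (∀ p : HeightOneSpectrum (𝓞 K), kp p (m : K) ≠ 0 → p ∈ T) := by
    refine ⟨supp u ∪ ((finite_dvd hI0).toFinset ∪ supp (m : K)),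
      fun p hp => Finset.mem_union_left _ hp,
      fun p hp => Finset.mem_union_right _ (Finset.mem_union_left _
        ((Set.Finite.mem_toFinset _).2 hp)),
      fun p hp => Finset.mem_union_right _ (Finset.mem_union_right _ ((mem_supp hmK p).2 hp))⟩
  have hPu := de_prod hu T fun p hp => hTs p ((mem_supp hu p).2 hp)
  have hPm := de_prod hmK T hTm
  have hNI := de_sum_ex hI0 T hTI
  have hmult : ∑ v : InfinitePlace K, (v.mult : ℝ) = (Module.finrank ℚ K : ℝ) := by
    have h := InfinitePlace.sum_mult_eq (K := K)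
    exact_mod_cast h
  have hn0 : (0 : ℝ) < n := by exact_mod_cast hn
  obtain ⟨Γ, hΓ⟩ : ∃ Γ : ℝ, Γ = ∑ p ∈ T, (gr n (kp p u) : ℝ) * lN p := ⟨_, rfl⟩
  obtain ⟨σ, hσ⟩ : ∃ σ : ℝ, σ = (Real.log M - Γ / n) /
      (Module.finrank ℚ K : ℝ) := ⟨_, rfl⟩
  have hdσ : (Module.finrank ℚ K : ℝ) * σ = Real.log M - Γ / n := by
    rw [hσ]
    field_simp
  have hvm : ∀ v : InfinitePlace K, 0 < v (m : K) := fun v => InfinitePlace.pos_iff.2 hmK
  obtain ⟨F, hF⟩ : ∃ F : InfinitePlace K → ℝ, ∀ v, F v =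
      Real.exp (Real.log (v u) / n + σ) * v (m : K) := ⟨_, fun _ => rfl⟩
  have hFpos : ∀ v, 0 < F v := fun v => by
    rw [hF]; exact mul_pos (Real.exp_pos _) (hvm v)
  have hlogF : ∀ v, Real.log (F v) = Real.log (v u) / n + σ + Real.log (v (m : K)) := fun v => by
    rw [hF, Real.log_mul (Real.exp_pos _).ne' (hvm v).ne', Real.log_exp]
  have hsumF : ∑ v : InfinitePlace K, (v.mult : ℝ) * Real.log (F v) =
      Real.log M + Real.log (Ideal.absNorm (A * J) : ℝ) := by
    have e1 : ∑ v : InfinitePlace K, (v.mult : ℝ) * Real.log (F v) =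
        (∑ v : InfinitePlace K, (v.mult : ℝ) * Real.log (v u)) / n +
        (∑ v : InfinitePlace K, (v.mult : ℝ)) * σ +
        ∑ v : InfinitePlace K, (v.mult : ℝ) * Real.log (v (m : K)) := by
      rw [Finset.sum_div, Finset.sum_mul, ← Finset.sum_add_distrib, ← Finset.sum_add_distrib]
      refine Finset.sum_congr rfl fun v _ => ?_
      rw [hlogF]
      ring
    rw [e1, hmult, hPu, hPm, hdσ, ← hNI, hΓ]
    have e2 : ∀ a b c d e : ℝ, a - b + c = e → a + (d - b) + c = d + e := by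
      intro a b c d e h; linarith
    apply e2
    rw [Finset.sum_div, Finset.sum_div, ← Finset.sum_sub_distrib, ← Finset.sum_add_distrib]
    refine Finset.sum_congr rfl fun p _ => ?_
    have h0 : ((ex (A * J) p : ℕ) : ℝ) = (fr n (kp p u) : ℝ) + (kp p (m : K) : ℝ) := by
      have := hexI p
      exact_mod_cast this
    rw [h0]
    have h1 : (gr n (kp p u) : ℝ) = (kp p u : ℝ) - n * (fr n (kp p u) : ℝ) := by
      unfold gr
      push_cast
      ring
    rw [h1]
    field_simp
    ring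
  have hNIpos : (0 : ℝ) < (Ideal.absNorm (A * J) : ℝ) :=
    lt_of_lt_of_le one_pos (one_le_absNorm K hI0)
  have hprod : ∏ v : InfinitePlace K, F v ^ v.mult = M * (Ideal.absNorm (A * J) : ℝ) := by
    apply Real.log_injOn_pos
    · exact Set.mem_Ioi.2 (Finset.prod_pos fun v _ => pow_pos (hFpos v) _)
    · exact Set.mem_Ioi.2 (mul_pos hM0 hNIpos)
    · rw [Real.log_prod (fun v _ => (pow_pos (hFpos v) _).ne'), Real.log_mul hM0.ne' hNIpos.ne',
        ← hsumF]
      refine Finset.sum_congr rfl fun v _ => ?_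
      rw [Real.log_pow]
  obtain ⟨a, haI, ha, haF⟩ := exists_box K (A * J) hI0 F hFpos (by
    have h1 : (Ideal.absNorm (A * J) : ℝ) * √|(discr K : ℝ)| <
        M * (Ideal.absNorm (A * J) : ℝ) := by
      rw [hMdef]
      have h2 : 0 < (Ideal.absNorm (A * J) : ℝ) * √|(discr K : ℝ)| :=
        mul_pos hNIpos (by linarith)
      linarith
    rw [← hprod] at h1
    convert h1)
  have haK : (a : K) ≠ 0 := by exact_mod_cast ha
  have hsa : Ideal.span {a} ≠ (⊥ : Ideal (𝓞 K)) := by simpa using ha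
  obtain ⟨b, hb⟩ : A * J ∣ Ideal.span {a} :=
    Ideal.dvd_iff_le.2 ((Ideal.span_singleton_le_iff_mem _).2 haI)
  have hb0 : b ≠ ⊥ := by
    rintro rfl
    apply hsa
    rw [hb]
    exact mul_zero _
  have hkpa : ∀ p, kp p (a : K) = (ex (A * J) p : ℤ) + ex b p := by
    intro p
    rw [← ex_span ha, hb, ex_mul hI0 hb0]
    push_cast
    rfl
  have hkp : ∀ p, kp p ((a : K) / (m : K)) = fr n (kp p u) + ex b p := by
    intro p
    rw [kp_div p haK hmK, hkpa, hexI]
    ring
  have hlogN : Real.log (Ideal.absNorm (Ideal.span {a}) : ℝ) =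
      Real.log (Ideal.absNorm (A * J) : ℝ) + Real.log (Ideal.absNorm b : ℝ) := by
    rw [hb, map_mul, Nat.cast_mul, Real.log_mul hNIpos.ne'
      (lt_of_lt_of_le one_pos (one_le_absNorm K hb0)).ne']
  have hPa : ∑ v : InfinitePlace K, (v.mult : ℝ) * Real.log (v (a : K)) =
      Real.log (Ideal.absNorm (A * J) : ℝ) + Real.log (Ideal.absNorm b : ℝ) := by
    have h1 := de_prod haK (finite_dvd hsa).toFinset fun p hp => by
      rw [Set.Finite.mem_toFinset]
      by_contra h2
      rw [← ex_span ha, ex_eq_zero h2] at hp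
      exact hp rfl
    rw [h1, ← hlogN, ← de_sum_ex hsa (finite_dvd hsa).toFinset
      fun p hp => (Set.Finite.mem_toFinset _).2 hp]
    refine Finset.sum_congr rfl fun p _ => ?_
    rw [← ex_span ha]
    push_cast
    rfl
  -- the distances `s v`
  have hs : ∀ v : InfinitePlace K, 0 ≤ Real.log (F v) - Real.log (v (a : K)) := fun v => by
    have h1 := Real.log_le_log (InfinitePlace.pos_iff.2 haK) (haF v).le
    linarith
  have hssum : ∑ v : InfinitePlace K, (v.mult : ℝ) * (Real.log (F v) - Real.log (v (a : K))) =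
      Real.log M - Real.log (Ideal.absNorm b : ℝ) := by
    have e1 : ∑ v : InfinitePlace K, (v.mult : ℝ) * (Real.log (F v) - Real.log (v (a : K))) =
        ∑ v : InfinitePlace K, (v.mult : ℝ) * Real.log (F v) -
        ∑ v : InfinitePlace K, (v.mult : ℝ) * Real.log (v (a : K)) := by
      rw [← Finset.sum_sub_distrib]
      refine Finset.sum_congr rfl fun v _ => ?_
      ring
    rw [e1, hsumF, hPa]
    ring
  have hNb1 : 1 ≤ (Ideal.absNorm b : ℝ) := one_le_absNorm K hb0
  have hlb0 : 0 ≤ Real.log (Ideal.absNorm b : ℝ) := Real.log_nonneg hNb1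
  have hlb : Real.log (Ideal.absNorm b : ℝ) ≤ Real.log M := by
    have h1 : 0 ≤ ∑ v : InfinitePlace K, (v.mult : ℝ) *
        (Real.log (F v) - Real.log (v (a : K))) :=
      Finset.sum_nonneg fun v _ => mul_nonneg (Nat.cast_nonneg _) (hs v)
    linarith
  have hsv : ∀ v : InfinitePlace K, Real.log (F v) - Real.log (v (a : K)) ≤ Real.log M := by
    intro v
    have h1 : (v.mult : ℝ) * (Real.log (F v) - Real.log (v (a : K))) ≤
        ∑ v : InfinitePlace K, (v.mult : ℝ) * (Real.log (F v) - Real.log (v (a : K))) :=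
      Finset.single_le_sum (f := fun v : InfinitePlace K => (v.mult : ℝ) *
        (Real.log (F v) - Real.log (v (a : K))))
        (fun v _ => mul_nonneg (Nat.cast_nonneg _) (hs v)) (Finset.mem_univ v)
    have h2 : (1 : ℝ) ≤ (v.mult : ℝ) := by exact_mod_cast v.mult_pos
    have h3 := hs v
    nlinarith
  refine ⟨b, hb0, ?_, (a : K) / (m : K), div_ne_zero haK hmK, hkp, fun v => ?_⟩
  · rwa [Real.log_le_log_iff (by linarith) hM0] at hlb
  · have h2 : Real.log (v ((a : K) / (m : K))) - Real.log (v u) / n =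
        σ - (Real.log (F v) - Real.log (v (a : K))) := by
      rw [map_div₀, Real.log_div (InfinitePlace.pos_iff.2 haK).ne' (hvm v).ne', hlogF]
      ring
    rw [h2]
    have h3 : |σ| ≤ Real.log M + lsum (supp u) := by
      have h4 : |σ| ≤ |(Real.log M - Γ / n)| := by
        rw [hσ, abs_div, abs_of_pos (lt_of_lt_of_le one_pos hd)]
        exact div_le_self (abs_nonneg _) hd
      have h5 : |Γ / n| ≤ lsum (supp u) := by
        have h6 : Γ = ∑ p ∈ supp u, (gr n (kp p u) : ℝ) * lN p := by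
          rw [hΓ]
          symm
          apply Finset.sum_subset hTs
          intro p _ hp
          rw [gr_kp_zero hu n hn p hp]
          simp
        rw [abs_div, abs_of_pos hn0, div_le_iff₀ hn0, h6]
        refine (Finset.abs_sum_le_sum_abs _ _).trans ?_
        unfold lsum
        rw [Finset.sum_mul]
        refine Finset.sum_le_sum fun p _ => ?_
        have h7 := gr_abs n hn (kp p u)
        have h8 : 2 * |(gr n (kp p u) : ℝ)| ≤ n := by exact_mod_cast h7
        rw [abs_mul, abs_of_pos (lN_pos p)]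
        have h9 := lN_pos p
        have h10 := abs_nonneg (gr n (kp p u) : ℝ)
        nlinarith
      have h6 : |Real.log M| ≤ Real.log M := by
        rw [abs_of_nonneg hlM]
      have h7 := abs_sub (Real.log M) (Γ / n)
      linarith
    have h4 := hs v
    have h5 := hsv v
    have h6 := abs_sub σ (Real.log (F v) - Real.log (v (a : K)))
    rw [abs_of_nonneg h4] at h6
    linarith

end HallEff
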