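import Mathlib
/-!
# The number of ideals of bounded norm, uniformly in the field

Proof. `G` is the finite set of the nonzero ideals of norm `≤ n` (`Ideal.finite_setOf_absNorm_le`,
remove `⊥`, `absNorm ⊥ = 0`). For `1 ≤ m ≤ n` the nonzero ideals of norm `m` inject into
`𝓞 K ⧸ span {m}`, a set of `m ^ d` elements (`Ideal.absNorm_span_singleton`, `Algebra.norm_algebraMap`
/ `Ideal.absNorm_span_natCast` or similar; `d = finrank`, `RingOfIntegers.rank`): `m ∈ b`
(`Ideal.absNorm_mem`), so `span {m} ≤ b` and by `IsDedekindDomain.exists_sup_span_eq` there is `α` with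
`span {m} ⊔ span {α} = b`; `b` is determined by the class of `α` modulo `m`. Hence
`G.card ≤ ∑_{m=1}^n m ^ d ≤ n * n ^ d`.
-/

set_option autoImplicit false

namespace HallEff

open NumberField

private theorem absNorm_span_nat (K : Type*) [Field K] [NumberField K] (m : ℕ) :
    Ideal.absNorm (Ideal.span {(m : 𝓞 K)}) = m ^ Module.finrank ℚ K := by
  rw [Ideal.absNorm_span_singleton]
  have h := Algebra.norm_algebraMap (R := ℤ) (S := 𝓞 K) (m : ℤ)
  rw [RingOfIntegers.rank] at h
  have h2 : (algebraMap ℤ (𝓞 K)) (m : ℤ) = (m : 𝓞 K) := by simp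
  rw [h2] at h
  rw [h, Int.natAbs_pow, Int.natAbs_natCast]

private theorem card_fiber (K : Type*) [Field K] [NumberField K] (m : ℕ) (hm : m ≠ 0)
    (F : Finset (Ideal (𝓞 K))) (hF : ∀ b ∈ F, Ideal.absNorm b = m) :
    F.card ≤ m ^ Module.finrank ℚ K := by
  classical
  have hm0 : (m : 𝓞 K) ≠ 0 := Nat.cast_ne_zero.mpr hm
  have hspan : Ideal.span {(m : 𝓞 K)} ≠ ⊥ := by
    rw [Ne, Ideal.span_singleton_eq_bot]; exact hm0
  have key : ∀ b ∈ F, ∃ a : 𝓞 K, Ideal.span {(m : 𝓞 K)} ⊔ Ideal.span {a} = b := by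
    intro b hb
    apply IsDedekindDomain.exists_sup_span_eq _ hspan
    rw [Ideal.span_singleton_le_iff_mem, ← hF b hb]
    exact Ideal.absNorm_mem b
  choose! f hf using key
  have hinj : Set.InjOn (fun b => (Ideal.Quotient.mk (Ideal.span {(m : 𝓞 K)}) (f b)))
      (F : Set (Ideal (𝓞 K))) := by
    intro b hb c hc hbc
    have h1 : f b - f c ∈ Ideal.span {(m : 𝓞 K)} := Ideal.Quotient.eq.mp hbc
    rw [← hf b hb, ← hf c hc]
    apply le_antisymm
    · refine sup_le le_sup_left ?_
      rw [Ideal.span_singleton_le_iff_mem]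
      have h2 : f b = (f b - f c) + f c := by ring
      rw [h2]
      exact Ideal.add_mem _ (Ideal.mem_sup_left h1)
        (Ideal.mem_sup_right (Ideal.mem_span_singleton_self _))
    · refine sup_le le_sup_left ?_
      rw [Ideal.span_singleton_le_iff_mem]
      have h2 : f c = -(f b - f c) + f b := by ring
      rw [h2]
      exact Ideal.add_mem _ (neg_mem (Ideal.mem_sup_left h1))
        (Ideal.mem_sup_right (Ideal.mem_span_singleton_self _))
  have hcard : Nat.card (𝓞 K ⧸ Ideal.span {(m : 𝓞 K)}) = m ^ Module.finrank ℚ K := by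
    rw [← absNorm_span_nat K m, Ideal.absNorm_apply]
    rfl
  have hfin : Finite (𝓞 K ⧸ Ideal.span {(m : 𝓞 K)}) := by
    apply Nat.finite_of_card_ne_zero
    rw [hcard]
    exact pow_ne_zero _ hm
  have : Fintype (𝓞 K ⧸ Ideal.span {(m : 𝓞 K)}) := Fintype.ofFinite _
  rw [← hcard, Nat.card_eq_fintype_card, ← Finset.card_univ]
  exact Finset.card_le_card_of_injOn _ (fun _ _ => by simp) hinj

theorem card_ideals_le (K : Type*) [Field K] [NumberField K] (n : ℕ) :
    ∃ G : Finset (Ideal (𝓞 K)), (∀ b : Ideal (𝓞 K), b ≠ ⊥ → Ideal.absNorm b ≤ n → b ∈ G) ∧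
      G.card ≤ n ^ (Module.finrank ℚ K + 1) := by
  classical
  let S := (Ideal.finite_setOfPred_absNorm_le (S := 𝓞 K) n).toFinset.erase ⊥
  refine ⟨S, ?_, ?_⟩
  · intro b hb hbn
    rw [Finset.mem_erase, Set.Finite.mem_toFinset]
    exact ⟨hb, hbn⟩
  · have hmaps : ∀ b ∈ S, Ideal.absNorm b ∈ Finset.Icc 1 n := by
      intro b hb
      rw [Finset.mem_erase, Set.Finite.mem_toFinset] at hb
      rw [Finset.mem_Icc]
      refine ⟨?_, hb.2⟩
      rw [Nat.one_le_iff_ne_zero, Ne, Ideal.absNorm_eq_zero_iff]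
      exact hb.1
    rw [Finset.card_eq_sum_card_fiberwise hmaps]
    calc ∑ m ∈ Finset.Icc 1 n, (S.filter (fun b => Ideal.absNorm b = m)).card
        ≤ ∑ m ∈ Finset.Icc 1 n, n ^ Module.finrank ℚ K := by
          apply Finset.sum_le_sum
          intro m hm
          rw [Finset.mem_Icc] at hm
          refine (card_fiber K m (by omega) _ (fun b hb => (Finset.mem_filter.mp hb).2)).trans ?_
          exact Nat.pow_le_pow_left hm.2 _
      _ = n ^ (Module.finrank ℚ K + 1) := by
          rw [Finset.sum_const, Nat.card_Icc, smul_eq_mul, pow_succ]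
          simp [mul_comm]

end HallEff
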