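import Pool.Agent.Work.MP_a793bb_nt.RadK.LabK

/-!
# The radical of the point `(a : b : c)`

Proof. `badPrimes_affine` (`MP_a793bb_nt/Basic`): `Ip (-a / c) = badPrimes a b c`. If `p` is in it,
not all of `av p a, av p b, av p c` are equal, so (all are `≤ 1`, integers) one is `< 1`, hence
`av p (a b c) < 1` and `p` divides `(a b c) ^ 2 = m`. So `Rs (Ip (-a / c))` is at most the sum of
`lN p` over the primes dividing the ideal `span {m}`, and this is at most
`∑ ex p lN p = log N(span {m}) = log (|m| ^ d) = d log |m|` (`sum_ex_lN` in `RadK/LabK`,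
`absNorm (span {m}) = |m| ^ d`).
-/

set_option autoImplicit false

namespace HallEff

open AbcRadK Finset AbcRad Pool.Agent.Work.MP_a793bb_nt Pool.Agent.Work.MP_a793bb_nt.BPlus
  NumberField IsDedekindDomain Height

private theorem av_int_le {L : Type*} [Field L] [NumberField L] (p : HeightOneSpectrum (𝓞 L))
    (r : 𝓞 L) : av p (r : L) ≤ 1 := by
  by_contra h
  push Not at h
  have h0 : (r : L) ≠ 0 := by
    intro h0
    rw [h0, av_eq] at h
    simp at h
    linarith
  have h1 : av p (r : L)⁻¹ < 1 := by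
    rw [av_inv]
    exact inv_lt_one_of_one_lt₀ h
  rw [av_lt_one_iff, map_inv₀] at h1
  have h2 : p.valuation L (r : L) ≤ 1 := p.valuation_le_one r
  have h3 : p.valuation L (r : L) ≠ 0 := (Valuation.ne_zero_iff _).mpr h0
  have h4 : 1 ≤ (p.valuation L (r : L))⁻¹ := (one_le_inv₀ (zero_lt_iff.2 h3)).2 h2
  exact absurd h1 (not_lt.2 h4)

theorem Rs_le_log {L : Type*} [Field L] [NumberField L] (a b c : 𝓞 L) (h : a + b + c = 0) (m : ℤ)
    (hm : m ≠ 0) (habc : (a * b * c) ^ 2 = ((m : ℤ) : 𝓞 L)) :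
    Rs (Ip (-(a : L) / (c : L))) ≤ (Module.finrank ℚ L : ℝ) * Real.log |(m : ℝ)| := by
  have hm' : ((m : ℤ) : 𝓞 L) ≠ 0 := by exact_mod_cast hm
  have hne : a * b * c ≠ 0 := by
    intro h0
    rw [h0] at habc
    apply hm'
    rw [← habc]
    ring
  have hc : c ≠ 0 := right_ne_zero_of_mul hne
  have ha : a ≠ 0 := left_ne_zero_of_mul (left_ne_zero_of_mul hne)
  have hb : b ≠ 0 := right_ne_zero_of_mul (left_ne_zero_of_mul hne)
  have hcL : (c : L) ≠ 0 := by exact_mod_cast hc
  have hsum : (a : L) + (b : L) + (c : L) = 0 := by exact_mod_cast h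
  rw [← badPrimes_affine hcL hsum]
  set M : Ideal (𝓞 L) := Ideal.span {((m : ℤ) : 𝓞 L)} with hMdef
  have hM : M ≠ ⊥ := by
    rw [hMdef, Ne, Ideal.span_singleton_eq_bot]
    exact hm'
  have hsub : badPrimes (a : L) (b : L) (c : L) ⊆
      (((finite_dvd hM).toFinset : Finset (HeightOneSpectrum (𝓞 L))) :
        Set (HeightOneSpectrum (𝓞 L))) := by
    intro p hp
    rw [mem_badPrimes_iff] at hp
    rw [Finset.mem_coe, Set.Finite.mem_toFinset]
    change p.asIdeal ∣ M
    rw [hMdef, ← HeightOneSpectrum.valuation_lt_one_iff_dvd (K := L), ← av_lt_one_iff]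
    have h1 : algebraMap (𝓞 L) L ((m : ℤ) : 𝓞 L) = ((a : L) * (b : L) * (c : L)) ^ 2 := by
      rw [← habc, map_pow, map_mul, map_mul]
    change av p (algebraMap (𝓞 L) L ((m : ℤ) : 𝓞 L)) < 1
    rw [h1, av_pow, av_mul, av_mul]
    have ha1 := av_int_le p a
    have hb1 := av_int_le p b
    have hc1 := av_int_le p c
    have ha0 := av_nonneg p (a : L)
    have hb0 := av_nonneg p (b : L)
    have hc0 := av_nonneg p (c : L)
    have hlt : av p (a : L) * av p (b : L) * av p (c : L) < 1 := by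
      by_contra hcon
      push Not at hcon
      apply hp
      have e1 : av p (a : L) = 1 := by
        apply le_antisymm ha1
        nlinarith [mul_le_one₀ hb1 hc0 hc1, mul_nonneg ha0 (sub_nonneg.2 (mul_le_one₀ hb1 hc0 hc1))]
      have e2 : av p (b : L) = 1 := by
        apply le_antisymm hb1
        nlinarith [mul_le_one₀ ha1 hc0 hc1, mul_nonneg hb0 (sub_nonneg.2 (mul_le_one₀ ha1 hc0 hc1))]
      have e3 : av p (c : L) = 1 := by
        apply le_antisymm hc1
        nlinarith [mul_le_one₀ ha1 hb0 hb1, mul_nonneg hc0 (sub_nonneg.2 (mul_le_one₀ ha1 hb0 hb1))]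
      exact ⟨e1.trans e2.symm, e2.trans e3.symm⟩
    exact pow_lt_one₀ (by positivity) hlt (by norm_num)
  have h1 : Rs (badPrimes (a : L) (b : L) (c : L)) ≤
      Rs (((finite_dvd hM).toFinset : Finset (HeightOneSpectrum (𝓞 L))) :
        Set (HeightOneSpectrum (𝓞 L))) := Rs_mono (Finset.finite_toSet _) hsub
  rw [Rs_finset] at h1
  refine h1.trans ?_
  have h2 : lsum (finite_dvd hM).toFinset ≤ Real.log (Ideal.absNorm M) := by
    rw [← sum_ex_lN hM]
    refine Finset.sum_le_sum fun p hp => ?_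
    rw [Set.Finite.mem_toFinset] at hp
    have h3 : 1 ≤ ex M p := one_le_ex hM hp
    have h4 : (1 : ℝ) ≤ (ex M p : ℝ) := by exact_mod_cast h3
    have h5 := (lN_pos p).le
    nlinarith
  refine h2.trans (le_of_eq ?_)
  have h6 : (Ideal.absNorm M : ℝ) = |(m : ℝ)| ^ (Module.finrank ℚ L) := by
    rw [hMdef, Ideal.absNorm_span_singleton]
    have h7 : Algebra.norm ℤ ((m : ℤ) : 𝓞 L) = m ^ (Module.finrank ℚ L) := by
      have h8 := Algebra.norm_algebraMap (R := ℤ) (S := 𝓞 L) m
      rw [← RingOfIntegers.rank L]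
      rw [← h8]
      rfl
    rw [h7, Int.natAbs_pow, Nat.cast_pow, Nat.cast_natAbs]
    push_cast
    rfl
  rw [h6, Real.log_pow]

end HallEff
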