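import Pool.Agent.Work.MP_a793bb_nt.RadK.HtEq

/-!
# The size of the solution in terms of the height

Proof. Let `v` be an infinite place, `A = v a`, `B = v b`, `C = v c`, all positive, and `t = -a / c`,
`1 - t = -b / c`. `A B C = √(108 |k|)` because `(A B C) ^ 2 = v ((abc) ^ 2) = 108 |k|`. By `sum_inf_le`
(`RadK/HtEq`) and `v.mult ≥ 1`, `|log (A / C)| = |log (v t)| ≤ 2 logHeight₁ t ≤ 2 h` and
`|log (B / C)| = |log (v (1 - t))| ≤ 2 logHeight₁ (1 - t) ≤ 2 h`, `h = hh t`: `logHeight₁_le_triple`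
gives `logHeight₁ t ≤ hh t`, and for `1 - t` the same with the coordinates exchanged
(`logHeight ![1 - t, t, -1] = logHeight ![t, 1 - t, -1]`, or `hs_sOf`/`logHeight₁_le_hs` as in
`RadE/EffK`). So `3 log C = log √(108 |k|) - log (A / C) - log (B / C) ≤ (1 / 2) log (108 |k|) + 4 h` and
each of `log A, log B, log C` is at most `(1 / 6) log (108 |k|) + (10 / 3) h`. As
`18 x = a ^ 2 + b ^ 2 + c ^ 2` (`a = θ₂ - θ₃` and so on), `18 |x| = v (18 x) ≤ A ^ 2 + B ^ 2 + C ^ 2 ≤
3 (108 |k|) ^ (1 / 3) exp (20 h / 3)`, hence `|x| ≤ 18 |k| exp (7 h) =: X` (`|k| ≥ 1`, `h ≥ 0`). Then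
`y ^ 2 ≤ X ^ 3 + |k| ≤ X ^ 4`, `|y| ≤ X ^ 2`, `|x| ≤ X ^ 2`.
-/

set_option autoImplicit false

namespace HallEff

open AbcRadK Finset AbcRad Pool.Agent.Work.MP_a793bb_nt Pool.Agent.Work.MP_a793bb_nt.BPlus
  NumberField IsDedekindDomain Height

private theorem abs_log_place_le {L : Type*} [Field L] [NumberField L] (v : InfinitePlace L)
    {t : L} (ht : t ≠ 0) : |Real.log (v t)| ≤ 2 * logHeight₁ t := by
  have h1 := sum_inf_le t ht
  have h2 : (v.mult : ℝ) * |Real.log (v t)| ≤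
      ∑ w : InfinitePlace L, (w.mult : ℝ) * |Real.log (w t)| :=
    Finset.single_le_sum (f := fun w : InfinitePlace L => (w.mult : ℝ) * |Real.log (w t)|)
      (fun w _ => mul_nonneg (by positivity) (abs_nonneg _)) (Finset.mem_univ v)
  have h3 : (1 : ℝ) ≤ v.mult := by exact_mod_cast v.one_le_mult
  have h4 := abs_nonneg (Real.log (v t))
  nlinarith

private theorem place_int {L : Type*} [Field L] [NumberField L] (v : InfinitePlace L) (m : ℤ) :
    v ((m : ℤ) : L) = |(m : ℝ)| := by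
  rw [← InfinitePlace.norm_embedding_eq v, map_intCast, Complex.norm_intCast]

theorem size_le {L : Type*} [Field L] [NumberField L] (k x y : ℤ) (hk : k ≠ 0)
    (hxy : y ^ 2 = x ^ 3 + k) (a b c : 𝓞 L) (h : a + b + c = 0)
    (habc : (a * b * c) ^ 2 = ((-108 * k : ℤ) : 𝓞 L))
    (hx : a ^ 2 + b ^ 2 + c ^ 2 = ((18 * x : ℤ) : 𝓞 L)) :
    max |(x : ℝ)| |(y : ℝ)| ≤
      (18 * |(k : ℝ)| * Real.exp (7 * hh (-(a : L) / (c : L)))) ^ 2 := by
  have hm' : ((-108 * k : ℤ) : 𝓞 L) ≠ 0 := by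
    have : (-108 * k : ℤ) ≠ 0 := by omega
    exact_mod_cast this
  have hne : a * b * c ≠ 0 := by
    intro h0
    rw [h0] at habc
    apply hm'
    rw [← habc]
    ring
  have hc : c ≠ 0 := right_ne_zero_of_mul hne
  have ha : a ≠ 0 := left_ne_zero_of_mul (left_ne_zero_of_mul hne)
  have hb : b ≠ 0 := right_ne_zero_of_mul (left_ne_zero_of_mul hne)
  have haL : (a : L) ≠ 0 := by exact_mod_cast ha
  have hbL : (b : L) ≠ 0 := by exact_mod_cast hb
  have hcL : (c : L) ≠ 0 := by exact_mod_cast hc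
  have hsum : (a : L) + (b : L) + (c : L) = 0 := by exact_mod_cast h
  set t : L := -(a : L) / (c : L) with ht
  have ht0 : t ≠ 0 := affine_ne_zero haL hcL
  have ht1 : t ≠ 1 := affine_ne_one hbL hcL hsum
  have h1t : 1 - t = -(b : L) / (c : L) := by
    rw [ht]
    field_simp
    linear_combination hsum
  set H : ℝ := hh t with hH
  have hH0 : 0 ≤ H := hh_nonneg t
  obtain ⟨v⟩ : Nonempty (InfinitePlace L) := inferInstance
  have hA : 0 < v (a : L) := InfinitePlace.pos_iff.2 haL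
  have hB : 0 < v (b : L) := InfinitePlace.pos_iff.2 hbL
  have hC : 0 < v (c : L) := InfinitePlace.pos_iff.2 hcL
  have hk1 : (1 : ℝ) ≤ |(k : ℝ)| := by
    have : (1 : ℤ) ≤ |k| := Int.one_le_abs hk
    exact_mod_cast this
  -- the product
  have hprod : (v (a : L) * v (b : L) * v (c : L)) ^ 2 = 108 * |(k : ℝ)| := by
    have e1 : (((a : L) * (b : L) * (c : L)) ^ 2) = ((-108 * k : ℤ) : L) := by
      have h5 := congrArg (algebraMap (𝓞 L) L) habc
      rw [map_intCast, map_pow, map_mul, map_mul] at h5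
      exact h5
    have e2 := congrArg v e1
    rw [map_pow, map_mul, map_mul, place_int] at e2
    rw [e2]
    push_cast
    rw [abs_mul]
    norm_num
  have hS : 2 * (Real.log (v (a : L)) + Real.log (v (b : L)) + Real.log (v (c : L))) =
      Real.log (108 * |(k : ℝ)|) := by
    rw [← hprod, Real.log_pow, Real.log_mul (by positivity) (by positivity),
      Real.log_mul (by positivity) (by positivity)]
    push_cast
    ring
  have hs0 : hs (sOf 0 t) = H := hs_sOf ht0 ht1 0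
  have g1 : logHeight₁ t ≤ H := logHeight₁_le_triple t
  have g2 : logHeight₁ (1 - t) ≤ H := by
    have e1 : (1 - t) = -(sOf 0 t) := by
      change 1 - t = -(t - 1)
      ring
    rw [e1, logHeight₁_neg, ← hs0]
    exact logHeight₁_le_hs _
  have f1 : |Real.log (v (a : L)) - Real.log (v (c : L))| ≤ 2 * H := by
    have e1 := abs_log_place_le v ht0
    have e2 : v t = v (a : L) / v (c : L) := by
      rw [ht, map_div₀, ← InfinitePlace.norm_embedding_eq v (-(a : L)), map_neg, norm_neg,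
        InfinitePlace.norm_embedding_eq]
    rw [e2, Real.log_div hA.ne' hC.ne'] at e1
    linarith
  have f2 : |Real.log (v (b : L)) - Real.log (v (c : L))| ≤ 2 * H := by
    have hne1 : (1 - t) ≠ 0 := sub_ne_zero.2 (Ne.symm ht1)
    have e1 := abs_log_place_le v hne1
    have e2 : v (1 - t) = v (b : L) / v (c : L) := by
      rw [h1t, map_div₀, ← InfinitePlace.norm_embedding_eq v (-(b : L)), map_neg, norm_neg,
        InfinitePlace.norm_embedding_eq]
    rw [e2, Real.log_div hB.ne' hC.ne'] at e1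
    linarith
  rw [abs_le] at f1 f2
  set S : ℝ := Real.log (108 * |(k : ℝ)|) with hSdef
  have u1 : Real.log (v (a : L)) ≤ S / 6 + 10 / 3 * H := by linarith [f1.1, f1.2, f2.1, f2.2]
  have u2 : Real.log (v (b : L)) ≤ S / 6 + 10 / 3 * H := by linarith [f1.1, f1.2, f2.1, f2.2]
  have u3 : Real.log (v (c : L)) ≤ S / 6 + 10 / 3 * H := by linarith [f1.1, f1.2, f2.1, f2.2]
  set E : ℝ := Real.exp (S / 6 + 10 / 3 * H) with hE
  have w1 : v (a : L) ≤ E := (Real.log_le_iff_le_exp hA).1 u1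
  have w2 : v (b : L) ≤ E := (Real.log_le_iff_le_exp hB).1 u2
  have w3 : v (c : L) ≤ E := (Real.log_le_iff_le_exp hC).1 u3
  have hE2 : E ^ 2 = Real.exp (S / 3 + 20 / 3 * H) := by
    rw [hE, ← Real.exp_nat_mul]
    congr 1
    push_cast
    ring
  have hS0 : 0 ≤ S := Real.log_nonneg (by linarith)
  have hbig : E ^ 2 ≤ 108 * |(k : ℝ)| * Real.exp (7 * H) := by
    rw [hE2]
    have e1 : 108 * |(k : ℝ)| = Real.exp S := by
      rw [hSdef, Real.exp_log (by positivity)]
    rw [e1, ← Real.exp_add]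
    apply Real.exp_le_exp.2
    linarith
  -- the bound of x
  have hx18 : 18 * |(x : ℝ)| ≤ 3 * E ^ 2 := by
    have e1 : (a : L) ^ 2 + (b : L) ^ 2 + (c : L) ^ 2 = ((18 * x : ℤ) : L) := by
      have h5 := congrArg (algebraMap (𝓞 L) L) hx
      rw [map_intCast, map_add, map_add, map_pow, map_pow, map_pow] at h5
      exact h5
    have e2 : v ((18 * x : ℤ) : L) ≤ v (a : L) ^ 2 + v (b : L) ^ 2 + v (c : L) ^ 2 := by
      rw [← e1]
      have h6 : v ((a : L) ^ 2 + (b : L) ^ 2 + (c : L) ^ 2) ≤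
          v ((a : L) ^ 2) + v ((b : L) ^ 2) + v ((c : L) ^ 2) :=
        (AbsoluteValue.add_le v.1 _ _).trans (add_le_add (AbsoluteValue.add_le v.1 _ _) le_rfl)
      rwa [map_pow, map_pow, map_pow] at h6
    rw [place_int] at e2
    push_cast at e2
    rw [abs_mul] at e2
    norm_num at e2
    have e3 := pow_le_pow_left₀ hA.le w1 2
    have e4 := pow_le_pow_left₀ hB.le w2 2
    have e5 := pow_le_pow_left₀ hC.le w3 2
    linarith
  set X : ℝ := 18 * |(k : ℝ)| * Real.exp (7 * H) with hX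
  have hXx : |(x : ℝ)| ≤ X := by
    rw [hX]
    linarith
  have hexp1 : (1 : ℝ) ≤ Real.exp (7 * H) := Real.one_le_exp (by positivity)
  have hXk : |(k : ℝ)| ≤ X := by
    rw [hX]
    nlinarith [mul_le_mul hk1 hexp1 (by norm_num) (by positivity)]
  have hX2 : 2 ≤ X := by
    rw [hX]
    nlinarith [mul_le_mul hk1 hexp1 (by norm_num) (by positivity)]
  apply max_le
  · nlinarith
  · apply abs_le_of_sq_le_sq' _ (by positivity) |> fun h => abs_le.2 h
    have e1 : (y : ℝ) ^ 2 = (x : ℝ) ^ 3 + k := by exact_mod_cast hxy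
    rw [e1]
    have e2 : (x : ℝ) ^ 3 ≤ X ^ 3 := by
      calc (x : ℝ) ^ 3 ≤ |(x : ℝ) ^ 3| := le_abs_self _
        _ = |(x : ℝ)| ^ 3 := abs_pow _ _
        _ ≤ X ^ 3 := pow_le_pow_left₀ (abs_nonneg _) hXx 3
    have e3 : (k : ℝ) ≤ X := (le_abs_self _).trans hXk
    have e4 : X ^ 3 + X ≤ (X ^ 2) ^ 2 := by
      have : (X ^ 2) ^ 2 - X ^ 3 - X = X * (X ^ 2 * (X - 1) - 1) := by ring
      have h5 : 0 ≤ X * (X ^ 2 * (X - 1) - 1) := by
        apply mul_nonneg (by linarith)
        nlinarith [mul_self_nonneg X]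
      linarith
    linarith

end HallEff
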