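import Pool.Agent.Work.MP_f2148a_nt.HE.HhE
import Pool.Agent.Work.MP_f2148a_nt.HE.PairE
import Pool.Agent.Work.MP_f2148a_nt.HE.DiscE
import Pool.Agent.Work.MP_f2148a_nt.HE.CubicField
import Pool.Agent.Work.MP_f2148a_nt.HE.RadX
import Pool.Agent.Work.MP_f2148a_nt.HE.SizeX

/-!
# An effective bound for the solutions of Mordell's equation

Proof. `L, θᵢ` from `exists_cubicField x y`, `a = θ₂ - θ₃`, `b = θ₃ - θ₁`, `c = θ₁ - θ₂`;
`(abc) ^ 2 = -108 k` by `sq_vandermonde`, so `a, b, c ≠ 0`; `a² + b² + c² = 18 x`. `t = -a / c ≠ 0, 1`.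
`d = finrank ℚ L ∈ {1, ..., 6}`; `c₁ ≥ 1` the maximum (or sum) of the constants of `eff_height_unif d`
for `d = 1, ..., 6`. With `κ = 108 |k| ≥ 108`, `D = |discr L| ≤ κ ^ 3` (`discr_le`),
`C = 2 (4 D) ^ (d + 1) ≤ 2 (4 κ ^ 3) ^ 7 ≤ κ ^ 30`, `ℓ = 6 log κ ≥ 1` (`Rs_le_log`),
`hh t ≤ C ^ c₁ exp (c₁ ℓ ^ 2) ≤ exp (c₂ (log κ) ^ 2)`, and
`max (|x|, |y|) ≤ (18 |k| exp (7 hh t)) ^ 2 ≤ exp (exp (c₃ (log κ) ^ 2))`,
`log κ = log 108 + log |k| ≤ 5 (1 + log |k|)`.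
-/

set_option autoImplicit false

namespace HallEff

open AbcRadK Finset AbcRad Pool.Agent.Work.MP_a793bb_nt Pool.Agent.Work.MP_a793bb_nt.BPlus
  NumberField IsDedekindDomain Height

/-- One constant for all degrees at most `6`. -/
private theorem eb_const : ∃ c : ℝ, 1 ≤ c ∧ ∀ (K : Type) [Field K] [NumberField K],
    Module.finrank ℚ K ≤ 6 → ∀ C : ℝ, 1 ≤ C → PairP K C → ∀ (ℓ : ℝ) (t : K), 1 ≤ ℓ →
      t ≠ 0 → t ≠ 1 → Rs (Ip t) ≤ ℓ → hh t ≤ C ^ c * Real.exp (c * ℓ ^ 2) := by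
  have key : ∀ n : ℕ, ∃ c : ℝ, 1 ≤ c ∧ ∀ (K : Type) [Field K] [NumberField K],
    Module.finrank ℚ K ≤ n → ∀ C : ℝ, 1 ≤ C → PairP K C → ∀ (ℓ : ℝ) (t : K), 1 ≤ ℓ →
      t ≠ 0 → t ≠ 1 → Rs (Ip t) ≤ ℓ → hh t ≤ C ^ c * Real.exp (c * ℓ ^ 2) := by
    intro n
    induction n with
    | zero =>
      refine ⟨1, le_rfl, fun K _ _ hfin => ?_⟩
      have h1 : 0 < Module.finrank ℚ K := Module.finrank_pos
      omega
    | succ n ih =>
      obtain ⟨c₁, hc₁, h1⟩ := ih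
      obtain ⟨c₂, hc₂, h2⟩ := eff_height_unif (n + 1) (by omega)
      refine ⟨max c₁ c₂, le_max_of_le_left hc₁, fun K _ _ hfin C hC hP ℓ t hℓ h0 ht1 hR => ?_⟩
      have mono : ∀ c : ℝ, c ≤ max c₁ c₂ → C ^ c * Real.exp (c * ℓ ^ 2) ≤
          C ^ (max c₁ c₂) * Real.exp (max c₁ c₂ * ℓ ^ 2) := by
        intro c hc
        refine mul_le_mul (Real.rpow_le_rpow_of_exponent_le hC hc) (Real.exp_le_exp.2 ?_)
          (Real.exp_pos _).le (Real.rpow_nonneg (by linarith) _)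
        exact mul_le_mul_of_nonneg_right hc (sq_nonneg ℓ)
      rcases Nat.lt_or_ge (Module.finrank ℚ K) (n + 1) with h | h
      · exact (h1 K (by omega) C hC hP ℓ t hℓ h0 ht1 hR).trans (mono _ (le_max_left _ _))
      · exact (h2 K (by omega) C hC hP ℓ t hℓ h0 ht1 hR).trans (mono _ (le_max_right _ _))
  exact key 6

private theorem eb_num (c : ℝ) (hc : 1 ≤ c) : ∃ C : ℝ, 0 ≤ C ∧ ∀ (κ D : ℝ) (d : ℕ), 108 ≤ κ →
    0 ≤ D → D ^ 2 ≤ κ ^ d → d ≤ 6 → ∀ h : ℝ,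
    h ≤ (2 * (4 * D) ^ (d + 1)) ^ c * Real.exp (c * (6 * Real.log κ) ^ 2) →
    (κ * Real.exp (7 * h)) ^ 2 ≤ Real.exp (Real.exp (C * (Real.log κ) ^ 2)) := by
  refine ⟨65 * c + 3, by linarith, fun κ D d hκ hD hDd hd h hh' => ?_⟩
  obtain ⟨Λ, hΛ⟩ : ∃ Λ : ℝ, Λ = Real.log κ := ⟨_, rfl⟩
  have hκ0 : 0 < κ := by linarith
  have hexpΛ : Real.exp Λ = κ := by
    rw [hΛ]
    exact Real.exp_log hκ0
  have hΛ1 : 1 ≤ Λ := by
    rw [hΛ, ← Real.log_exp 1]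
    refine Real.log_le_log (Real.exp_pos _) ?_
    have := Real.exp_one_lt_d9
    linarith
  have hD3 : D ≤ κ ^ 3 := by
    have h1 : D ^ 2 ≤ (κ ^ 3) ^ 2 := by
      refine hDd.trans ?_
      rw [← pow_mul]
      exact pow_le_pow_right₀ (by linarith) (by omega)
    exact le_of_sq_le_sq h1 (by positivity)
  have h4D : 4 * D ≤ κ ^ 4 := by
    have h1 : 4 * κ ^ 3 ≤ κ * κ ^ 3 := mul_le_mul_of_nonneg_right (by linarith) (by positivity)
    calc 4 * D ≤ 4 * κ ^ 3 := by linarith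
      _ ≤ κ * κ ^ 3 := h1
      _ = κ ^ 4 := by ring
  have hC1 : 2 * (4 * D) ^ (d + 1) ≤ Real.exp (29 * Λ) := by
    have h1 : (4 * D) ^ (d + 1) ≤ (κ ^ 4) ^ 7 := by
      refine (pow_le_pow_left₀ (by linarith) h4D _).trans ?_
      exact pow_le_pow_right₀ (one_le_pow₀ (by linarith)) (by omega)
    have h2 : Real.exp (29 * Λ) = κ ^ 29 := by
      rw [show (29 : ℝ) * Λ = ((29 : ℕ) : ℝ) * Λ by norm_num, Real.exp_nat_mul, hexpΛ]
    rw [h2]
    calc 2 * (4 * D) ^ (d + 1) ≤ κ * (κ ^ 4) ^ 7 :=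
          mul_le_mul (by linarith) h1 (by positivity) hκ0.le
      _ = κ ^ 29 := by ring
  have hh2 : h ≤ Real.exp (65 * c * Λ ^ 2) := by
    refine hh'.trans ?_
    have h0 : 0 ≤ 2 * (4 * D) ^ (d + 1) := by positivity
    have h1 : (2 * (4 * D) ^ (d + 1)) ^ c ≤ Real.exp (29 * Λ * c) := by
      rw [Real.exp_mul]
      exact Real.rpow_le_rpow h0 hC1 (by linarith)
    rw [← hΛ]
    calc (2 * (4 * D) ^ (d + 1)) ^ c * Real.exp (c * (6 * Λ) ^ 2)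
        ≤ Real.exp (29 * Λ * c) * Real.exp (c * (6 * Λ) ^ 2) :=
          mul_le_mul_of_nonneg_right h1 (Real.exp_pos _).le
      _ = Real.exp (29 * Λ * c + c * (6 * Λ) ^ 2) := (Real.exp_add _ _).symm
      _ ≤ Real.exp (65 * c * Λ ^ 2) := by
          refine Real.exp_le_exp.2 ?_
          have h2 : Λ * c ≤ Λ ^ 2 * c := mul_le_mul_of_nonneg_right (by nlinarith) (by linarith)
          nlinarith
  have hsq : (κ * Real.exp (7 * h)) ^ 2 = Real.exp (2 * Λ + 14 * h) := by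
    rw [← hexpΛ, ← Real.exp_add, ← Real.exp_nat_mul]
    congr 1
    push_cast
    ring
  rw [hsq, ← hΛ]
  refine Real.exp_le_exp.2 ?_
  obtain ⟨E, hE⟩ : ∃ E : ℝ, E = 65 * c * Λ ^ 2 := ⟨_, rfl⟩
  rw [← hE] at hh2
  have hΛE : Λ ≤ E := by
    rw [hE]
    have h1 : Λ ≤ Λ ^ 2 := by nlinarith
    have h2 : 0 ≤ Λ ^ 2 := sq_nonneg _
    nlinarith
  have hEe : E ≤ Real.exp E := by
    have := Real.add_one_le_exp E
    linarith
  have h16 : (16 : ℝ) ≤ Real.exp 3 := by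
    have h4 : Real.exp 3 = (Real.exp 1) ^ 3 := by
      rw [← Real.exp_nat_mul]
      norm_num
    rw [h4]
    have h5 := Real.exp_one_gt_d9
    have h6 : (2.7182818283 : ℝ) ^ 3 ≤ (Real.exp 1) ^ 3 :=
      pow_le_pow_left₀ (by norm_num) h5.le 3
    refine le_trans ?_ h6
    norm_num
  have hfin : Real.exp 3 * Real.exp E ≤ Real.exp ((65 * c + 3) * Λ ^ 2) := by
    rw [← Real.exp_add]
    refine Real.exp_le_exp.2 ?_
    rw [hE]
    have h1 : 1 ≤ Λ ^ 2 := by nlinarith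
    nlinarith
  have hE0 := Real.exp_pos E
  calc 2 * Λ + 14 * h ≤ 16 * Real.exp E := by linarith
    _ ≤ Real.exp 3 * Real.exp E := mul_le_mul_of_nonneg_right h16 hE0.le
    _ ≤ Real.exp ((65 * c + 3) * Λ ^ 2) := hfin

theorem eff_bound : ∃ C : ℝ, 0 ≤ C ∧ ∀ k x y : ℤ, k ≠ 0 → y ^ 2 = x ^ 3 + k →
    max |(x : ℝ)| |(y : ℝ)| ≤ Real.exp (Real.exp (C * (1 + Real.log |(k : ℝ)|) ^ 2)) := by
  obtain ⟨c, hc, hmain⟩ := eb_const
  obtain ⟨C, hC, hnum⟩ := eb_num c hc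
  refine ⟨C * 25, by positivity, fun k x y hk hxy => ?_⟩
  obtain ⟨L, _, _, θ₁, θ₂, θ₃, e1, e2, e3, htop, hd6⟩ := exists_cubicField x y
  obtain ⟨a, ha⟩ : ∃ a : 𝓞 L, a = θ₂ - θ₃ := ⟨_, rfl⟩
  obtain ⟨b, hb⟩ : ∃ b : 𝓞 L, b = θ₃ - θ₁ := ⟨_, rfl⟩
  obtain ⟨e, he⟩ : ∃ e : 𝓞 L, e = θ₁ - θ₂ := ⟨_, rfl⟩
  have hk1 : (1 : ℝ) ≤ |(k : ℝ)| := by
    have h1 : 1 ≤ |k| := Int.one_le_abs hk
    exact_mod_cast h1
  obtain ⟨κ, hκ⟩ : ∃ κ : ℝ, κ = 108 * |(k : ℝ)| := ⟨_, rfl⟩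
  have hκ1 : 108 ≤ κ := by linarith
  have habe : a + b + e = 0 := by
    rw [ha, hb, he]
    ring
  have hV : (a * b * e) ^ 2 = ((-108 * k : ℤ) : 𝓞 L) := by
    have h1 := sq_vandermonde (x : 𝓞 L) (y : 𝓞 L) θ₁ θ₂ θ₃ e1 (by rw [e2]; push_cast; ring)
      (by rw [e3]; push_cast; ring)
    have h2 : (k : 𝓞 L) = (y : 𝓞 L) ^ 2 - (x : 𝓞 L) ^ 3 := by
      have h3 : k = y ^ 2 - x ^ 3 := by linarith
      rw [h3]
      push_cast
      ring
    rw [ha, hb, he]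
    push_cast
    rw [h2]
    linear_combination h1
  have hne : a * b * e ≠ 0 := by
    intro h0
    rw [h0] at hV
    have h1 : ((-108 * k : ℤ) : 𝓞 L) = 0 := by
      rw [← hV]
      ring
    have h2 : -108 * k = 0 := by exact_mod_cast h1
    omega
  have ha0 : a ≠ 0 := fun h => hne (by rw [h]; ring)
  have hb0 : b ≠ 0 := fun h => hne (by rw [h]; ring)
  have he0 : e ≠ 0 := fun h => hne (by rw [h]; ring)
  have haK : (a : L) ≠ 0 := by exact_mod_cast ha0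
  have hbK : (b : L) ≠ 0 := by exact_mod_cast hb0
  have heK : (e : L) ≠ 0 := by exact_mod_cast he0
  have hsumK : (a : L) + (b : L) + (e : L) = 0 := by exact_mod_cast habe
  have hx : a ^ 2 + b ^ 2 + e ^ 2 = ((18 * x : ℤ) : 𝓞 L) := by
    have h1 : ((18 * x : ℤ) : 𝓞 L) = -6 * ((-3 * x : ℤ) : 𝓞 L) := by
      push_cast
      ring
    rw [h1, ← e2, ha, hb, he]
    have h2 : θ₃ = -θ₁ - θ₂ := by linear_combination e1
    rw [h2]
    ring
  have hdisc := discr_le L k x y hk hxy θ₁ θ₂ θ₃ e1 e2 e3 htop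
  rw [← hκ] at hdisc
  have hD1 : (1 : ℝ) ≤ |(discr L : ℝ)| := by
    have h1 : 1 ≤ |discr L| := Int.one_le_abs (discr_ne_zero L)
    exact_mod_cast h1
  have hlog1 : 1 ≤ Real.log κ := by
    rw [← Real.log_exp 1]
    refine Real.log_le_log (Real.exp_pos _) ?_
    have := Real.exp_one_lt_d9
    linarith
  have hRs := Rs_le_log a b e habe (-108 * k) (by omega) hV
  have habs : |((-108 * k : ℤ) : ℝ)| = κ := by
    push_cast
    rw [abs_mul, abs_neg, hκ]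
    norm_num
  rw [habs] at hRs
  have hd6' : (Module.finrank ℚ L : ℝ) ≤ 6 := by exact_mod_cast hd6
  have hRs2 : Rs (Ip (-(a : L) / (e : L))) ≤ 6 * Real.log κ :=
    hRs.trans (mul_le_mul_of_nonneg_right hd6' (by linarith))
  have hC1 : (1 : ℝ) ≤ 2 * (4 * |(discr L : ℝ)|) ^ (Module.finrank ℚ L + 1) := by
    have h1 : (1 : ℝ) ≤ (4 * |(discr L : ℝ)|) ^ (Module.finrank ℚ L + 1) :=
      one_le_pow₀ (by linarith)
    linarith
  have hhb := hmain L hd6 _ hC1 (pairP_disc L) (6 * Real.log κ) (-(a : L) / (e : L))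
    (by linarith) (affine_ne_zero haK heK) (affine_ne_one hbK heK hsumK) hRs2
  have hsz := size_le k x y hk hxy a b e habe hV hx
  refine hsz.trans (le_trans ?_ ((hnum κ |(discr L : ℝ)| _ hκ1 (abs_nonneg _) hdisc hd6 _
    hhb).trans ?_))
  · refine pow_le_pow_left₀ (by positivity) ?_ 2
    refine mul_le_mul_of_nonneg_right ?_ (Real.exp_pos _).le
    rw [hκ]
    linarith
  · refine Real.exp_le_exp.2 (Real.exp_le_exp.2 ?_)
    have h1 : Real.log κ ≤ 5 * (1 + Real.log |(k : ℝ)|) := by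
      rw [hκ, Real.log_mul (by norm_num) (by linarith)]
      have h2 : Real.log 108 ≤ 5 := by
        have h3 : (108 : ℝ) ≤ Real.exp 5 := by
          have h4 : Real.exp 5 = (Real.exp 1) ^ 5 := by
            rw [← Real.exp_nat_mul]
            norm_num
          rw [h4]
          have h5 := Real.exp_one_gt_d9
          have h6 : (2.7182818283 : ℝ) ^ 5 ≤ (Real.exp 1) ^ 5 :=
            pow_le_pow_left₀ (by norm_num) h5.le 5
          refine le_trans ?_ h6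
          norm_num
        calc Real.log 108 ≤ Real.log (Real.exp 5) := Real.log_le_log (by norm_num) h3
          _ = 5 := Real.log_exp 5
      have h3 := Real.log_nonneg hk1
      linarith
    have h4 : (Real.log κ) ^ 2 ≤ (5 * (1 + Real.log |(k : ℝ)|)) ^ 2 :=
      pow_le_pow_left₀ (by linarith) h1 2
    calc C * (Real.log κ) ^ 2 ≤ C * (5 * (1 + Real.log |(k : ℝ)|)) ^ 2 :=
          mul_le_mul_of_nonneg_left h4 hC
      _ = C * 25 * (1 + Real.log |(k : ℝ)|) ^ 2 := by ring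

end HallEff
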