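import Mathlib

/-!
# Derivatives in the different ideal

Proof. The minimal polynomial `m` of `x` over `A` divides `g` (`minpoly.isIntegrallyClosed_dvd`),
`g = m * h`, `g' = m' h + m h'`, so `g'(x) = m'(x) h(x)`, and `m'(x)` is in the different ideal
(`aeval_derivative_mem_differentIdeal`; `K` and `L` are the fraction fields of `A` and `B`).
-/

set_option autoImplicit false

namespace HallEff

open NumberField Polynomial

private theorem aeval_derivative_mem_of_dvd {A B : Type*} [CommRing A] [CommRing B] [Algebra A B]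
    (I : Ideal B) (x : B) (m g : A[X]) (hm : aeval x m = 0) (hd : m ∣ g)
    (h : aeval x (derivative m) ∈ I) : aeval x (derivative g) ∈ I := by
  obtain ⟨q, rfl⟩ := hd
  rw [derivative_mul, map_add, map_mul, map_mul, hm, zero_mul, add_zero]
  exact I.mul_mem_right _ h

theorem aeval_derivative_mem_int (K : Type*) [Field K] [NumberField K] (x : 𝓞 K)
    (hx : Algebra.adjoin ℚ {(x : K)} = ⊤) (g : ℤ[X]) (hg : g.Monic) (h0 : aeval x g = 0) :
    aeval x (derivative g) ∈ differentIdeal ℤ (𝓞 K) :=
  aeval_derivative_mem_of_dvd _ x (minpoly ℤ x) g (minpoly.aeval ℤ x)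
    (minpoly.isIntegrallyClosed_dvd (Algebra.IsIntegral.isIntegral x) h0)
    (aeval_derivative_mem_differentIdeal ℤ ℚ K x hx)

theorem aeval_derivative_mem_rel (F L : Type*) [Field F] [NumberField F] [Field L] [NumberField L]
    [Algebra F L] (x : 𝓞 L) (hx : Algebra.adjoin F {(x : L)} = ⊤) (g : (𝓞 F)[X]) (hg : g.Monic)
    (h0 : aeval x g = 0) : aeval x (derivative g) ∈ differentIdeal (𝓞 F) (𝓞 L) :=
  aeval_derivative_mem_of_dvd _ x (minpoly (𝓞 F) x) g (minpoly.aeval (𝓞 F) x)
    (minpoly.isIntegrallyClosed_dvd (Algebra.IsIntegral.isIntegral x) h0)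
    (aeval_derivative_mem_differentIdeal (𝓞 F) F L x hx)

end HallEff
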