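import Pool.Agent.Work.MP_a793bb_nt.RadE.EffDefs

/-!
# Choice of the parameters, polynomially in the constant `C`

This is `exists_num` of `MP_a793bb_nt/RadE/EffNum` with `exp (C' ℓ ^ 2)`, `C' = C'(d, C)`, replaced
by `C ^ c * exp (c ℓ ^ 2)`, `c = c(d)`. (Copy that file and adapt it.)

Proof. Let `H = ⌈C ^ (d + 2) * exp (A ℓ ^ 2)⌉₊` with `A = A(d)` so large that `hfin` and `hinf` hold:
`7 (C + ℓ) (ℓ + d) ≤ C * (7 (1 + ℓ) (ℓ + d))`, `C + ℓ + 1 ≤ C (ℓ + 2)`, all other factors are at most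
`exp (const(d) * ℓ ^ 2)` (as in `en_common`, with `log x ≤ x`, `ℓ ≥ 1`). `N = ⌊q / (30000 d ^ 2 ℓ)⌋₊`.
For `q ≥ C ^ c exp (c ℓ ^ 2)` with `c ≥ 2 (d + 2)` and `c` large, `√q ≥ c₁ ℓ ^ 2 H` with
`c₁ = 4200120000 d ^ 3` and everything else is as in `exists_num`.
-/

set_option autoImplicit false

namespace HallEff

open AbcRadK

/-- `x ≤ exp x`. -/
private theorem en_le_exp (x : ℝ) : x ≤ Real.exp x := by
  have := Real.add_one_le_exp x
  linarith

private theorem en_common (d : ℕ) (C ℓ : ℝ) (hd : (1 : ℝ) ≤ d) (hC : 1 ≤ C) (hℓ : 1 ≤ ℓ) :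
    C * (5 * (ℓ + d)) ^ (2 * ℓ) * (7 * (C + ℓ) * (ℓ + d)) ^ d ≤
      Real.exp ((C + 10 * (1 + d) + d * (7 * C + 8 + d)) * ℓ ^ 2) := by
  have hsq : ℓ ≤ ℓ ^ 2 := by nlinarith
  have h1sq : 1 ≤ ℓ ^ 2 := by nlinarith
  have e1 : C ≤ Real.exp (C * ℓ ^ 2) := by
    refine (en_le_exp C).trans (Real.exp_le_exp.2 ?_)
    nlinarith
  have e2 : (5 * (ℓ + d)) ^ (2 * ℓ) ≤ Real.exp (10 * (1 + d) * ℓ ^ 2) := by
    have h0 : 0 ≤ 5 * (ℓ + (d : ℝ)) := by linarith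
    calc (5 * (ℓ + d)) ^ (2 * ℓ) ≤ (Real.exp (5 * (ℓ + d))) ^ (2 * ℓ) :=
          Real.rpow_le_rpow h0 (en_le_exp _) (by linarith)
      _ = Real.exp (5 * (ℓ + d) * (2 * ℓ)) := (Real.exp_mul _ _).symm
      _ ≤ Real.exp (10 * (1 + d) * ℓ ^ 2) := by
          refine Real.exp_le_exp.2 ?_
          have : (d : ℝ) * ℓ ≤ d * ℓ ^ 2 := mul_le_mul_of_nonneg_left hsq (by linarith)
          nlinarith
  have e3 : (7 * (C + ℓ) * (ℓ + d)) ^ d ≤ Real.exp (d * (7 * C + 8 + d) * ℓ ^ 2) := by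
    have h0 : 0 ≤ 7 * (C + ℓ) * (ℓ + (d : ℝ)) := by
      refine mul_nonneg ?_ ?_ <;> linarith
    have h1 : 7 * (C + ℓ) * (ℓ + (d : ℝ)) ≤ Real.exp (7 * (C + ℓ) + (ℓ + d)) := by
      rw [Real.exp_add]
      exact mul_le_mul (en_le_exp _) (en_le_exp _) (by linarith) (Real.exp_pos _).le
    calc (7 * (C + ℓ) * (ℓ + d)) ^ d ≤ (Real.exp (7 * (C + ℓ) + (ℓ + d))) ^ d :=
          pow_le_pow_left₀ h0 h1 d
      _ = Real.exp (d * (7 * (C + ℓ) + (ℓ + d))) := (Real.exp_nat_mul _ _).symm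
      _ ≤ Real.exp (d * (7 * C + 8 + d) * ℓ ^ 2) := by
          refine Real.exp_le_exp.2 ?_
          rw [mul_assoc]
          refine mul_le_mul_of_nonneg_left ?_ (by linarith)
          nlinarith
  have p2 : 0 ≤ (5 * (ℓ + (d : ℝ))) ^ (2 * ℓ) := Real.rpow_nonneg (by linarith) _
  have p3 : 0 ≤ (7 * (C + ℓ) * (ℓ + (d : ℝ))) ^ d := by
    refine pow_nonneg ?_ _
    refine mul_nonneg ?_ ?_ <;> linarith
  calc C * (5 * (ℓ + d)) ^ (2 * ℓ) * (7 * (C + ℓ) * (ℓ + d)) ^ d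
      ≤ Real.exp (C * ℓ ^ 2) * Real.exp (10 * (1 + d) * ℓ ^ 2) *
        Real.exp (d * (7 * C + 8 + d) * ℓ ^ 2) := by
        refine mul_le_mul ?_ e3 p3 (by positivity)
        exact mul_le_mul e1 e2 p2 (by positivity)
    _ = Real.exp ((C + 10 * (1 + d) + d * (7 * C + 8 + d)) * ℓ ^ 2) := by
        rw [← Real.exp_add, ← Real.exp_add]
        congr 1
        ring

private theorem en_nat_div (N H h : ℕ) (hh : 1 ≤ h) (hhH : h ≤ H) :
    (N : ℝ) / H - 1 ≤ ((N / h : ℕ) : ℝ) := by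
  have hH : (0 : ℝ) < H := by
    have : 0 < H := by omega
    exact_mod_cast this
  have h1 : N / H ≤ N / h := Nat.div_le_div_left hhH (by omega)
  have h2 : (N : ℝ) < ((N / H : ℕ) + 1 : ℝ) * H := by
    have h3 : N < (N / H + 1) * H := by
      have := Nat.lt_mul_div_succ N (show 0 < H by omega)
      rw [mul_comm]
      exact this
    exact_mod_cast h3
  have h3 : (N : ℝ) / H < ((N / H : ℕ) + 1 : ℝ) := by
    rw [div_lt_iff₀ hH]
    exact h2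
  have h4 : ((N / H : ℕ) : ℝ) ≤ ((N / h : ℕ) : ℝ) := by exact_mod_cast h1
  linarith

theorem exists_numE (d : ℕ) (hd : 1 ≤ d) : ∃ c : ℝ, 1 ≤ c ∧ ∀ C ℓ q : ℝ, 1 ≤ C → 1 ≤ ℓ →
    C ^ c * Real.exp (c * ℓ ^ 2) ≤ q → ∃ N H : ℕ, Num d C ℓ q N H := by
  have hD : (1 : ℝ) ≤ d := by exact_mod_cast hd
  obtain ⟨B, hB⟩ : ∃ B : ℝ, B = 1 + 10 * (1 + d) + d * (7 * 1 + 8 + d) := ⟨_, rfl⟩
  obtain ⟨A, hA⟩ : ∃ A : ℝ, A = B + (1 + 637505 * d) + (388 + 6782976 * d ^ 2) := ⟨_, rfl⟩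
  have hB0 : 0 ≤ B := by
    rw [hB]
    positivity
  have hA0 : 0 ≤ A := by
    rw [hA]
    positivity
  obtain ⟨c, hc⟩ : ∃ c : ℝ, c = 4200120000 * (d : ℝ) ^ 3 := ⟨_, rfl⟩
  have hd3 : (d : ℝ) ≤ (d : ℝ) ^ 3 := by nlinarith [sq_nonneg ((d : ℝ) - 1)]
  have hcd : 8 * (d : ℝ) ≤ c := by
    rw [hc]
    linarith
  refine ⟨2 * (c + 1 + A) + 2 * (d + 2), by linarith, ?_⟩
  intro C ℓ q hC hℓ hq'
  have hC0 : 0 ≤ C := by linarith
  have hsq : ℓ ≤ ℓ ^ 2 := by nlinarith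
  have h1sq : 1 ≤ ℓ ^ 2 := by nlinarith
  have hcom := en_common d 1 ℓ hD le_rfl hℓ
  rw [← hB, one_mul] at hcom
  -- the power of `C`
  obtain ⟨P, hP⟩ : ∃ P : ℝ, P = C ^ (d + 2) := ⟨_, rfl⟩
  have hP1 : 1 ≤ P := by
    rw [hP]
    exact one_le_pow₀ hC
  have hP0 : 0 < P := by linarith
  have hq : P ^ 2 * Real.exp (2 * (c + 1 + A) * ℓ ^ 2) ≤ q := by
    refine le_trans ?_ hq'
    refine mul_le_mul ?_ ?_ (Real.exp_pos _).le (Real.rpow_nonneg hC0 _)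
    · rw [hP, ← pow_mul, ← Real.rpow_natCast]
      refine Real.rpow_le_rpow_of_exponent_le hC ?_
      push_cast
      linarith
    · refine Real.exp_le_exp.2 ?_
      refine mul_le_mul_of_nonneg_right ?_ (by positivity)
      linarith
  -- the number `H`
  obtain ⟨H, hH⟩ : ∃ H : ℕ, H = ⌈P * Real.exp (A * ℓ ^ 2)⌉₊ := ⟨_, rfl⟩
  have hHge : P * Real.exp (A * ℓ ^ 2) ≤ H := by
    rw [hH]
    exact Nat.le_ceil _
  have hexp1' : 1 ≤ Real.exp (A * ℓ ^ 2) := Real.one_le_exp (by positivity)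
  have hexp1 : 1 ≤ P * Real.exp (A * ℓ ^ 2) := one_le_mul_of_one_le_of_one_le hP1 hexp1'
  have hHle : (H : ℝ) ≤ 2 * (P * Real.exp (A * ℓ ^ 2)) := by
    have := Nat.ceil_lt_add_one (show 0 ≤ P * Real.exp (A * ℓ ^ 2) by linarith)
    rw [hH]
    linarith
  have hH1 : 1 ≤ H := by
    have : (1 : ℝ) ≤ H := hexp1.trans hHge
    exact_mod_cast this
  have hH1' : (1 : ℝ) ≤ H := by exact_mod_cast hH1
  -- the square root of `q`
  have hq0 : 0 < q := lt_of_lt_of_le (by positivity) hq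
  obtain ⟨s, hs⟩ : ∃ s : ℝ, s = √q := ⟨_, rfl⟩
  have hs0 : 0 ≤ s := by
    rw [hs]
    exact Real.sqrt_nonneg _
  have hss : s * s = q := by
    rw [hs]
    exact Real.mul_self_sqrt hq0.le
  have hsexp : P * Real.exp ((c + 1 + A) * ℓ ^ 2) ≤ s := by
    rw [hs]
    refine Real.le_sqrt_of_sq_le ?_
    rw [mul_pow, ← Real.exp_nat_mul]
    refine le_trans (mul_le_mul_of_nonneg_left (Real.exp_le_exp.2 (le_of_eq ?_))
      (by positivity)) hq
    push_cast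
    ring
  have hsbig : c * ℓ ^ 2 * (P * Real.exp (A * ℓ ^ 2)) ≤ s := by
    refine le_trans ?_ hsexp
    have e : (c + 1 + A) * ℓ ^ 2 = c * ℓ ^ 2 + ℓ ^ 2 + A * ℓ ^ 2 := by ring
    rw [e, Real.exp_add, Real.exp_add]
    have e2 : c * ℓ ^ 2 * (P * Real.exp (A * ℓ ^ 2)) =
        P * (c * ℓ ^ 2 * Real.exp (A * ℓ ^ 2)) := by ring
    rw [e2]
    refine mul_le_mul_of_nonneg_left ?_ hP0.le
    refine mul_le_mul_of_nonneg_right ?_ (Real.exp_pos _).le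
    refine mul_le_mul ?_ (en_le_exp _) (by positivity) (Real.exp_pos _).le
    refine (en_le_exp c).trans (Real.exp_le_exp.2 ?_)
    have : 0 ≤ c := by linarith
    nlinarith
  have hc1 : 1 ≤ c := by linarith
  have hs1 : 1 ≤ s := by
    have h1 : 1 ≤ Real.exp ((c + 1 + A) * ℓ ^ 2) := Real.one_le_exp (by positivity)
    have h2 : 1 ≤ P * Real.exp ((c + 1 + A) * ℓ ^ 2) := one_le_mul_of_one_le_of_one_le hP1 h1
    linarith
  have hsqrt : √(2 * q) ≤ 2 * s := by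
    rw [← hss]
    have h1 : 2 * (s * s) ≤ (2 * s) ^ 2 := by nlinarith [mul_self_nonneg s]
    exact (Real.sqrt_le_sqrt h1).trans (le_of_eq (Real.sqrt_sq (by linarith)))
  -- the number `N`
  obtain ⟨N, hN⟩ : ∃ N : ℕ, N = ⌊q / (30000 * d ^ 2 * ℓ)⌋₊ := ⟨_, rfl⟩
  have hden : 0 < 30000 * (d : ℝ) ^ 2 * ℓ := by positivity
  have hNle : (N : ℝ) ≤ q / (30000 * d ^ 2 * ℓ) := by
    rw [hN]
    exact Nat.floor_le (by positivity)
  have hNge : q / (30000 * d ^ 2 * ℓ) - 1 ≤ N := by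
    have := Nat.lt_floor_add_one (q / (30000 * d ^ 2 * ℓ))
    rw [hN]
    linarith
  have hmain : ∀ h : ℕ, 1 ≤ h → h ≤ H →
      2 * ((⌈864 * ℓ⌉₊ : ℝ) + 2304 * d) * (√(2 * q) + 9) ≤ ((N / h : ℕ) : ℝ) := by
    intro h hh1 hhH
    refine le_trans ?_ (en_nat_div N H h hh1 hhH)
    have hHpos : (0 : ℝ) < H := by linarith
    have a1 : (⌈864 * ℓ⌉₊ : ℝ) ≤ 865 * ℓ := by
      have := Nat.ceil_lt_add_one (show (0 : ℝ) ≤ 864 * ℓ by linarith)
      linarith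
    have a2 : (⌈864 * ℓ⌉₊ : ℝ) + 2304 * d ≤ 3169 * (d * ℓ) := by
      have h1 : ℓ ≤ d * ℓ := by nlinarith
      have h2 : (d : ℝ) ≤ d * ℓ := by nlinarith
      linarith
    have a3 : √(2 * q) + 9 ≤ 11 * s := by linarith
    have a4 : 2 * ((⌈864 * ℓ⌉₊ : ℝ) + 2304 * d) * (√(2 * q) + 9) ≤
        2 * (3169 * (d * ℓ)) * (11 * s) := by
      refine mul_le_mul ?_ a3 ?_ ?_
      · linarith
      · have := Real.sqrt_nonneg (2 * q)
        linarith
      · positivity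
    refine a4.trans ?_
    have a5 : (q / (30000 * d ^ 2 * ℓ) - 1) / H - 1 ≤ (N : ℝ) / H - 1 := by
      have := div_le_div_of_nonneg_right hNge hHpos.le
      linarith
    refine le_trans ?_ a5
    have a6 : q / (30000 * d ^ 2 * ℓ) / H - 2 ≤ (q / (30000 * d ^ 2 * ℓ) - 1) / H - 1 := by
      rw [sub_div]
      have : 1 / (H : ℝ) ≤ 1 := by
        rw [div_le_one hHpos]
        exact hH1'
      linarith
    refine le_trans ?_ a6
    have a7 : 70002 * (d * ℓ) * s ≤ q / (30000 * d ^ 2 * ℓ) / H := by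
      rw [le_div_iff₀ hHpos, le_div_iff₀ hden, ← hss]
      have b1 : c * ℓ ^ 2 * (H / 2) ≤ s := by
        refine le_trans ?_ hsbig
        refine mul_le_mul_of_nonneg_left ?_ (by positivity)
        linarith
      have b2 : 70002 * (d * ℓ) * s * H * (30000 * d ^ 2 * ℓ) = (c * ℓ ^ 2 * (H / 2)) * s := by
        rw [hc]
        ring
      rw [b2]
      exact mul_le_mul_of_nonneg_right b1 hs0
    have a8 : 1 ≤ (d : ℝ) * ℓ * s := by
      have h1 : 1 ≤ (d : ℝ) * ℓ := by nlinarith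
      nlinarith
    nlinarith
  have hHN : H ≤ N := by
    have h1 := hmain H hH1 le_rfl
    have h2 : (0 : ℝ) < 2 * ((⌈864 * ℓ⌉₊ : ℝ) + 2304 * d) * (√(2 * q) + 9) := by
      have := Real.sqrt_nonneg (2 * q)
      positivity
    have h3 : (0 : ℝ) < ((N / H : ℕ) : ℝ) := h2.trans_le h1
    have h4 : 0 < N / H := by exact_mod_cast h3
    exact (Nat.div_pos_iff.1 h4).2
  -- the common factor
  have hCpow : C * (5 * (ℓ + d)) ^ (2 * ℓ) * (7 * (C + ℓ) * (ℓ + d)) ^ d ≤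
      C ^ (d + 1) * Real.exp (B * ℓ ^ 2) := by
    have p2 : 0 ≤ (5 * (ℓ + (d : ℝ))) ^ (2 * ℓ) := Real.rpow_nonneg (by linarith) _
    have h1 : 7 * (C + ℓ) * (ℓ + d) ≤ C * (7 * (1 + ℓ) * (ℓ + d)) := by
      have e1 : 7 * (C + ℓ) ≤ C * (7 * (1 + ℓ)) := by nlinarith
      calc 7 * (C + ℓ) * (ℓ + d) ≤ C * (7 * (1 + ℓ)) * (ℓ + d) :=
            mul_le_mul_of_nonneg_right e1 (by linarith)
        _ = C * (7 * (1 + ℓ) * (ℓ + d)) := by ring
    have h0 : 0 ≤ 7 * (C + ℓ) * (ℓ + (d : ℝ)) := by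
      refine mul_nonneg ?_ ?_ <;> linarith
    have h2 : (7 * (C + ℓ) * (ℓ + d)) ^ d ≤ C ^ d * (7 * (1 + ℓ) * (ℓ + d)) ^ d := by
      rw [← mul_pow]
      exact pow_le_pow_left₀ h0 h1 d
    calc C * (5 * (ℓ + d)) ^ (2 * ℓ) * (7 * (C + ℓ) * (ℓ + d)) ^ d
        ≤ C * (5 * (ℓ + d)) ^ (2 * ℓ) * (C ^ d * (7 * (1 + ℓ) * (ℓ + d)) ^ d) :=
          mul_le_mul_of_nonneg_left h2 (by positivity)
      _ = C ^ (d + 1) * ((5 * (ℓ + d)) ^ (2 * ℓ) * (7 * (1 + ℓ) * (ℓ + d)) ^ d) := by ring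
      _ ≤ C ^ (d + 1) * Real.exp (B * ℓ ^ 2) :=
          mul_le_mul_of_nonneg_left hcom (by positivity)
  have hCP : C ^ (d + 1) ≤ P := by
    rw [hP]
    exact pow_le_pow_right₀ hC (by omega)
  refine ⟨N, H, hH1, hHN, ?_, hNle, hmain, ?_, ?_⟩
  · have h1 : 8 * (d : ℝ) ≤ 2 * (c + 1 + A) * ℓ ^ 2 := by
      have h2 : 8 * (d : ℝ) ≤ 2 * (c + 1 + A) := by linarith
      nlinarith
    have h2 : Real.exp (2 * (c + 1 + A) * ℓ ^ 2) ≤
        P ^ 2 * Real.exp (2 * (c + 1 + A) * ℓ ^ 2) :=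
      le_mul_of_one_le_left (Real.exp_pos _).le (one_le_pow₀ hP1)
    exact h1.trans ((en_le_exp _).trans (h2.trans hq))
  · refine le_trans ?_ hHge
    have h1 : 2 * Real.exp (637505 * d * ℓ) ≤ Real.exp ((1 + 637505 * d) * ℓ ^ 2) := by
      have h2 : (2 : ℝ) ≤ Real.exp 1 := by
        have := Real.add_one_le_exp (1 : ℝ)
        linarith
      calc 2 * Real.exp (637505 * d * ℓ) ≤ Real.exp 1 * Real.exp (637505 * d * ℓ) :=
            mul_le_mul_of_nonneg_right h2 (Real.exp_pos _).le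
        _ = Real.exp (1 + 637505 * d * ℓ) := (Real.exp_add _ _).symm
        _ ≤ Real.exp ((1 + 637505 * d) * ℓ ^ 2) := by
            refine Real.exp_le_exp.2 ?_
            have : 637505 * (d : ℝ) * ℓ ≤ 637505 * d * ℓ ^ 2 :=
              mul_le_mul_of_nonneg_left hsq (by positivity)
            nlinarith
    calc C * (5 * (ℓ + d)) ^ (2 * ℓ) * (7 * (C + ℓ) * (ℓ + d)) ^ d *
          (2 * Real.exp (637505 * d * ℓ))
        ≤ C ^ (d + 1) * Real.exp (B * ℓ ^ 2) * Real.exp ((1 + 637505 * d) * ℓ ^ 2) :=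
          mul_le_mul hCpow h1 (by positivity) (by positivity)
      _ = C ^ (d + 1) * Real.exp ((B + (1 + 637505 * d)) * ℓ ^ 2) := by
          rw [mul_assoc, ← Real.exp_add]
          congr 2
          ring
      _ ≤ P * Real.exp (A * ℓ ^ 2) := by
          refine mul_le_mul hCP ?_ (Real.exp_pos _).le hP0.le
          refine Real.exp_le_exp.2 (mul_le_mul_of_nonneg_right ?_ (by positivity))
          rw [hA]
          have : 0 ≤ 388 + 6782976 * (d : ℝ) ^ 2 := by positivity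
          linarith
  · refine le_trans ?_ hHge
    have h1 : 385 * Real.exp (6782976 * d ^ 2) * (C + ℓ + 1) ≤
        C * Real.exp ((388 + 6782976 * d ^ 2) * ℓ ^ 2) := by
      have h2 : (385 : ℝ) ≤ Real.exp 385 := en_le_exp _
      have h3 : C + ℓ + 1 ≤ C * Real.exp (ℓ + 2) := by
        have h4 : C + ℓ + 1 ≤ C * (ℓ + 2) := by nlinarith
        exact h4.trans (mul_le_mul_of_nonneg_left (en_le_exp _) hC0)
      calc 385 * Real.exp (6782976 * d ^ 2) * (C + ℓ + 1)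
          ≤ Real.exp 385 * Real.exp (6782976 * d ^ 2) * (C * Real.exp (ℓ + 2)) := by
            refine mul_le_mul ?_ h3 (by positivity) (by positivity)
            exact mul_le_mul_of_nonneg_right h2 (Real.exp_pos _).le
        _ = C * Real.exp (385 + 6782976 * d ^ 2 + (ℓ + 2)) := by
            rw [Real.exp_add (385 + 6782976 * (d : ℝ) ^ 2), Real.exp_add (385 : ℝ)]
            ring
        _ ≤ C * Real.exp ((388 + 6782976 * d ^ 2) * ℓ ^ 2) := by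
            refine mul_le_mul_of_nonneg_left (Real.exp_le_exp.2 ?_) hC0
            have h4 : 6782976 * (d : ℝ) ^ 2 ≤ 6782976 * d ^ 2 * ℓ ^ 2 := by
              have : 0 ≤ 6782976 * (d : ℝ) ^ 2 := by positivity
              nlinarith
            nlinarith
    calc C * (5 * (ℓ + d)) ^ (2 * ℓ) * (7 * (C + ℓ) * (ℓ + d)) ^ d *
          (385 * Real.exp (6782976 * d ^ 2) * (C + ℓ + 1))
        ≤ C ^ (d + 1) * Real.exp (B * ℓ ^ 2) *
            (C * Real.exp ((388 + 6782976 * d ^ 2) * ℓ ^ 2)) :=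
          mul_le_mul hCpow h1 (by positivity) (by positivity)
      _ = P * Real.exp ((B + (388 + 6782976 * d ^ 2)) * ℓ ^ 2) := by
          rw [hP, add_mul B, Real.exp_add]
          ring
      _ ≤ P * Real.exp (A * ℓ ^ 2) := by
          refine mul_le_mul_of_nonneg_left ?_ hP0.le
          refine Real.exp_le_exp.2 (mul_le_mul_of_nonneg_right ?_ (by positivity))
          rw [hA]
          have : 0 ≤ 1 + 637505 * (d : ℝ) := by positivity
          linarith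

end HallEff
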