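import Pool.Agent.Work.MP_a793bb_nt.RadE.EffRoot

/-!
# Points of small height, uniformly in the field

`hh t = logHeight ![t, 1 - t, -1]`. Proof. As `hh_of_root` (`MP_a793bb_nt/RadE/EffRoot`), with the
constants made explicit: in `triple_le_logHeight₁` (`MP_a793bb_nt/Basic`) the constant is
`totalWeight K * log 2 + logHeight A` for a matrix `A` with entries `0, 1, -1`, whose height is `0`
(or direct: `logHeight ![t, 1 - t, -1]` is the sum over the places of the log of the maximum of the
three absolute values, at most `2 max (1, v t)` at the infinite places and `max (1, |t|_p)` at the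
finite ones); `totalWeight K = finrank ℚ K` (the sum of `v.mult` over the infinite places). So
`hh t ≤ logHeight₁ t + d log 2 ≤ logHeight₁ (1 - t) + 2 d log 2 = 2 d log 2 ≤ 2 d`.
-/

set_option autoImplicit false

namespace HallEff

open AbcRadK Finset AbcRad Pool.Agent.Work.MP_a793bb_nt Pool.Agent.Work.MP_a793bb_nt.BPlus
  NumberField IsDedekindDomain Height

/-- A tuple of elements `0, 1, -1` has height `1`. -/
private theorem mulHeight_small {K : Type*} [Field K] [NumberField K] {ι : Type*} [Finite ι]
    (A : ι → K) (hA : ∀ i, A i = 0 ∨ A i = 1 ∨ A i = -1) : mulHeight A = 1 := by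
  rcases eq_or_ne A 0 with rfl | h0
  · simp
  have key : ∀ v : AbsoluteValue K ℝ, (⨆ i, v (A i)) = 1 := by
    intro v
    have hle : ∀ i, v (A i) ≤ 1 := by
      intro i
      rcases hA i with h | h | h <;> rw [h]
      · simp
      · simp
      · rw [AbsoluteValue.map_neg]; simp
    refine le_antisymm (Real.iSup_le hle zero_le_one) ?_
    obtain ⟨i, hi⟩ := Function.ne_iff.1 h0
    have h1 : v (A i) = 1 := by
      rcases hA i with h | h | h
      · exact absurd h hi
      · rw [h]; simp
      · rw [h, AbsoluteValue.map_neg]; simp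
    rw [← h1]
    exact le_ciSup (f := fun i => v (A i)) (Set.finite_range _).bddAbove i
  rw [Height.mulHeight_eq h0]
  simp [key]

theorem hh_of_root_unif {K : Type*} [Field K] [NumberField K] (t : K) (i : ℕ) (hi : 0 < i)
    (h : (1 - t) ^ i = 1) : hh t ≤ 2 * (Module.finrank ℚ K : ℝ) := by
  have hlog2 : Real.log 2 ≤ 1 := by
    have := Real.log_two_lt_d9
    linarith
  have hlog0 : 0 ≤ Real.log 2 := Real.log_nonneg (by norm_num)
  have hd : (0 : ℝ) ≤ (Module.finrank ℚ K : ℝ) := by positivity
  -- the projective height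
  have h1 : logHeight ![t, 1 - t, -1] ≤
      logHeight₁ t + (Module.finrank ℚ K : ℝ) * Real.log 2 := by
    let A : Fin 3 × Fin 2 → K := fun ij => ![![1, 0], ![-1, 1], ![0, -1]] ij.1 ij.2
    have hA : logHeight A = 0 := by
      rw [logHeight_eq_log_mulHeight, mulHeight_small A ?_, Real.log_one]
      rintro ⟨a, b⟩
      fin_cases a <;> fin_cases b <;> simp [A]
    have h := logHeight_linearMap_apply_le A ![t, 1]
    have h2 : (fun j => ∑ i, A (j, i) * (![t, 1] : Fin 2 → K) i) = ![t, 1 - t, -1] := by
      ext j; fin_cases j <;> simp [A, Fin.sum_univ_two] <;> ring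
    rw [h2, hA, totalWeight_eq_finrank] at h
    rw [logHeight₁_eq_logHeight]
    simp at h
    linarith
  have h2 := two_pow_le_height (1 - t)
  have h3 : (1 : K) - (1 - t) = t := by ring
  rw [h3] at h2
  have h4 : logHeight₁ (1 - t) = 0 := by
    have h5 : logHeight₁ ((1 - t) ^ i) = i * logHeight₁ (1 - t) := logHeight₁_pow _ _
    rw [h, logHeight₁_one] at h5
    have h6 : (i : ℝ) ≠ 0 := by exact_mod_cast hi.ne'
    exact (mul_eq_zero.mp h5.symm).resolve_left h6
  have h7 : logHeight₁ t ≤ (Module.finrank ℚ K : ℝ) * Real.log 2 + logHeight₁ (1 - t) := by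
    rw [logHeight₁_eq_log_mulHeight₁, logHeight₁_eq_log_mulHeight₁]
    have h8 := Real.log_le_log (mulHeight₁_pos _) h2
    rw [Real.log_mul (by positivity) (mulHeight₁_pos _).ne', Real.log_pow,
      totalWeight_eq_finrank] at h8
    exact h8
  change logHeight ![t, 1 - t, -1] ≤ _
  nlinarith

end HallEff
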