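import Pool.Agent.Work.MP_a793bb_nt.RadE.EffK
import Pool.Agent.Work.MP_f2148a_nt.HE.NumE
import Pool.Agent.Work.MP_f2148a_nt.HE.RootE

/-!
# The effective height bound, uniformly in the field

This is `eff_height` of `MP_a793bb_nt/RadE/EffK` with the constants explicit (copy that file and
adapt it: `exists_num` is replaced by `exists_numE`, `hh_of_root` by `hh_of_root_unif`, `C₁` by `C`).

Proof. `c₀` from `exists_numE d`; `c = c₀ + 2 d + 1` (or larger). Suppose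
`hh t > C ^ c * exp (c ℓ ^ 2)`; with `q = hh t / 2` we have `q ≥ C ^ c₀ * exp (c₀ ℓ ^ 2)` (`C ≥ 1`,
`exp (c - c₀) ≥ 2`), `hh t > 2 d` (so `(1 - t) ^ i ≠ 1`). The rest is literally the proof of
`eff_height`, which uses only `PairP K C`.
-/

set_option autoImplicit false

namespace HallEff

open AbcRadK Finset AbcRad Pool.Agent.Work.MP_a793bb_nt Pool.Agent.Work.MP_a793bb_nt.BPlus
  NumberField IsDedekindDomain Height

open Classical in
private theorem lsum_supp_le {K : Type*} [Field K] [NumberField K] {t : K} (h0 : t ≠ 0)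
    (h1 : t ≠ 1) : lsum (supp (1 - t)) ≤ Rs (Ip t) := by
  have e : -sOf 0 t = 1 - t := by
    change -(t - 1) = 1 - t
    ring
  have h2 := supp_sOf h0 h1 0
  rw [e] at h2
  have h3 := zs_sum h0 h1
  have h4 := lsum_nonneg (zs 0 t)
  have h5 : lsum (zs (0 + 1) t ∪ zs (0 + 2) t) ≤ lsum (zs 1 t) + lsum (zs 2 t) := by
    unfold lsum
    rw [← Finset.sum_union_inter]
    exact le_add_of_nonneg_right (Finset.sum_nonneg fun p _ => (lN_pos p).le)
  rw [h2]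
  linarith

theorem eff_height_unif (d : ℕ) (hd : 1 ≤ d) : ∃ c : ℝ, 1 ≤ c ∧
    ∀ (K : Type) [Field K] [NumberField K], Module.finrank ℚ K = d → ∀ C : ℝ, 1 ≤ C →
      PairP K C → ∀ (ℓ : ℝ) (t : K), 1 ≤ ℓ → t ≠ 0 → t ≠ 1 → Rs (Ip t) ≤ ℓ →
        hh t ≤ C ^ c * Real.exp (c * ℓ ^ 2) := by
  obtain ⟨c₀, hc₀, hnum⟩ := exists_numE d hd
  have hd0 : (0 : ℝ) ≤ d := Nat.cast_nonneg d
  refine ⟨c₀ + 2 * d + 1, by linarith, fun K _ _ hfin C₁ hC₁ hP ℓ t hℓ h0 h1 hR => ?_⟩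
  by_contra hcon
  rw [not_le] at hcon
  obtain ⟨q, hq⟩ : ∃ q : ℝ, q = hh t / 2 := ⟨_, rfl⟩
  have hℓ2 : 1 ≤ ℓ ^ 2 := one_le_pow₀ hℓ
  have hpow : C₁ ^ c₀ ≤ C₁ ^ (c₀ + 2 * d + 1) :=
    Real.rpow_le_rpow_of_exponent_le hC₁ (by linarith)
  have hpow1 : 1 ≤ C₁ ^ c₀ := Real.one_le_rpow hC₁ (by linarith)
  have hexp0 : 2 * Real.exp (c₀ * ℓ ^ 2) ≤ Real.exp ((c₀ + 2 * d + 1) * ℓ ^ 2) := by
    have e1 : (c₀ + 2 * d + 1) * ℓ ^ 2 = c₀ * ℓ ^ 2 + (2 * d + 1) * ℓ ^ 2 := by ring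
    rw [e1, Real.exp_add, mul_comm]
    refine mul_le_mul_of_nonneg_left ?_ (Real.exp_pos _).le
    have h2 : (1 : ℝ) ≤ (2 * d + 1) * ℓ ^ 2 := by nlinarith
    have h3 := Real.add_one_le_exp ((2 * d + 1 : ℝ) * ℓ ^ 2)
    linarith
  have hexp : 2 * (C₁ ^ c₀ * Real.exp (c₀ * ℓ ^ 2)) ≤
      C₁ ^ (c₀ + 2 * d + 1) * Real.exp ((c₀ + 2 * d + 1) * ℓ ^ 2) := by
    have e1 : 2 * (C₁ ^ c₀ * Real.exp (c₀ * ℓ ^ 2)) = C₁ ^ c₀ * (2 * Real.exp (c₀ * ℓ ^ 2)) := by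
      ring
    rw [e1]
    exact mul_le_mul hpow hexp0 (by positivity) (by linarith)
  have hqe : C₁ ^ c₀ * Real.exp (c₀ * ℓ ^ 2) ≤ q := by
    rw [hq]
    linarith
  have hq0 : 0 < q := (mul_pos (by linarith) (Real.exp_pos _)).trans_le hqe
  have hqh : hh t = 2 * q := by
    rw [hq]
    ring
  subst hfin
  obtain ⟨N, H, hNH⟩ := hnum C₁ ℓ q hC₁ hℓ hqe
  have hu : (1 : K) - t ≠ 0 := sub_ne_zero.mpr (Ne.symm h1)
  have hu1 : (1 : K) - (1 - t) = t := by ring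
  have hrt : ∀ i : ℕ, 0 < i → (1 - t) ^ i ≠ 1 := by
    intro i hi h
    have h2 := hh_of_root_unif t i hi h
    have h3 : 2 * (Module.finrank ℚ K : ℝ) + 1 ≤
        Real.exp ((c₀ + 2 * (Module.finrank ℚ K : ℝ) + 1) * ℓ ^ 2) := by
      have h4 := Real.add_one_le_exp ((c₀ + 2 * (Module.finrank ℚ K : ℝ) + 1) * ℓ ^ 2)
      nlinarith
    have h5 : (1 : ℝ) ≤ C₁ ^ (c₀ + 2 * (Module.finrank ℚ K : ℝ) + 1) := hpow1.trans hpow
    have h6 : Real.exp ((c₀ + 2 * (Module.finrank ℚ K : ℝ) + 1) * ℓ ^ 2) ≤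
        C₁ ^ (c₀ + 2 * (Module.finrank ℚ K : ℝ) + 1) *
          Real.exp ((c₀ + 2 * (Module.finrank ℚ K : ℝ) + 1) * ℓ ^ 2) :=
      le_mul_of_one_le_left (Real.exp_pos _).le h5
    linarith
  have hr : lsum (supp (1 - t)) ≤ ℓ := (lsum_supp_le h0 h1).trans hR
  have hs0 : (1 : K) - t = -sOf 0 t := by
    change 1 - t = -(t - 1)
    ring
  have hs1 : 1 + sOf 0 t = t := by
    change 1 + (t - 1) = t
    ring
  have hH : logHeight₁ (1 - t) ≤ 2 * q := by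
    rw [hs0, logHeight₁_neg, ← hqh, ← hs_sOf h0 h1 0]
    exact logHeight₁_le_hs _
  have hH1 : logHeight₁ (1 - (1 - t)) ≤ 2 * q := by
    rw [hu1, ← hqh]
    exact logHeight₁_le_triple t
  by_cases hLP : LP t Set.univ < q / 2
  · obtain ⟨v, hv⟩ := inf_type q hNH.hq (sOf 0 t) (by rw [hs1]; exact h0)
      (by rw [hs_sOf h0 h1 0, hqh]; linarith) (by rw [hs1]; exact hLP)
    refine eff_inf C₁ ℓ q hC₁ hP hℓ N H hNH (1 - t) hu hrt hr hH v ?_
    have e : (1 : K) - t - 1 = -(1 + sOf 0 t) := by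
      rw [hs1]
      ring
    rw [e, show v (-(1 + sOf 0 t)) = v (1 + sOf 0 t) from v.1.map_neg _]
    exact hv
  · rw [not_lt, LP_univ_eq h0] at hLP
    have hZ : Rs (Zp t) ≤ ℓ := (Rs_mono (finite_Ip h0 h1) (Zp_subset_Ip t)).trans hR
    rw [Rs_eq_lsum h0] at hZ
    have hlog2 : (2 : ℝ) / 3 < Real.log 2 := by
      have := Real.log_two_gt_d9
      linarith
    have hcard : ((finite_Zp h0).toFinset.card : ℝ) * Real.log 2 ≤ ℓ := by
      refine le_trans ?_ hZ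
      rw [← nsmul_eq_mul, ← Finset.sum_const]
      refine Finset.sum_le_sum fun p _ => ?_
      exact Real.log_le_log (by norm_num) (two_le_Np p)
    obtain ⟨p, hp, hpp⟩ : ∃ p ∈ (finite_Zp h0).toFinset,
        q / (3 * ℓ) ≤ (kp p t : ℝ) * lN p := by
      by_contra hno
      push Not at hno
      have h2 : ∑ p ∈ (finite_Zp h0).toFinset, (kp p t : ℝ) * lN p ≤
          ∑ p ∈ (finite_Zp h0).toFinset, q / (3 * ℓ) :=
        Finset.sum_le_sum fun p hp => (hno p hp).le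
      rw [Finset.sum_const, nsmul_eq_mul] at h2
      have h3 : ((finite_Zp h0).toFinset.card : ℝ) * (q / (3 * ℓ)) < q / 2 := by
        have h4 : ((finite_Zp h0).toFinset.card : ℝ) < 3 / 2 * ℓ := by
          by_contra h5
          rw [not_lt] at h5
          nlinarith
        have h6 : q / 2 = 3 / 2 * ℓ * (q / (3 * ℓ)) := by
          field_simp
        rw [h6]
        exact mul_lt_mul_of_pos_right h4 (by positivity)
      linarith
    have hpl : lN p ≤ ℓ := by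
      refine le_trans ?_ hZ
      exact Finset.single_le_sum (f := fun p => lN p) (fun p _ => (lN_pos p).le) hp
    exact eff_fin C₁ ℓ q hC₁ hP hℓ N H hNH (1 - t) hu (by rw [hu1]; exact h0) hrt hr hH hH1 p hpl
      (by rw [hu1]; exact hpp)

end HallEff
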